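import Pool.Agent.helper616_TW.Defs
import Pool.Agent.helper616_TS.TS5

/-!
# Project TW (helper616): the formula of Plancherel
-/

set_option autoImplicit false
set_option maxHeartbeats 4000000

open Finset MeasureTheory Filter Topology
open Pool.Agent.helper616_TS (e)

namespace Pool.Agent.helper616_TW

open Pool.Agent.helper616_TS.TS5 (plancherel_sum)

namespace TW2


open FourierTransform in
theorem planch (hPl : ∀ (g : ℝ → ℂ), Integrable g → MemLp g 2 →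
      ∫⁻ ξ : ℝ, ‖𝓕 g ξ‖ₑ ^ 2 = ∫⁻ z : ℝ, ‖g z‖ₑ ^ 2)
    {ι : Type} (A : Finset ι) (w f : ι → ℝ) (g : ℝ → ℂ) (hg : Integrable g) (hg2 : MemLp g 2) :
    ∫⁻ t : ℝ, ‖∑ i ∈ A, (w i : ℂ) * g (f i - t)‖ₑ ^ 2 =
      ∫⁻ ξ : ℝ, ‖𝓕 g ξ‖ₑ ^ 2 * ‖∑ i ∈ A, (w i : ℂ) * e (ξ * f i)‖ₑ ^ 2 := by
  classical
  rcases A.eq_empty_or_nonempty with rfl | ⟨i₀, hi₀⟩
  · simp
  · set σ := A.equivFin.symm with hσ
    let idx : ℕ → ι := fun n => if h : n < A.card then (σ ⟨n, h⟩ : ι) else i₀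
    have key : ∀ φ : ι → ℂ, ∑ n ∈ range A.card, φ (idx n) = ∑ i ∈ A, φ i := by
      intro φ
      rw [Finset.sum_range (fun n => φ (idx n))]
      have h1 : ∀ n : Fin A.card, φ (idx n) = φ (σ n) := by
        intro n
        simp [idx, n.2]
      rw [Finset.sum_congr rfl fun n _ => h1 n, Equiv.sum_comp σ (fun a => φ a),
        Finset.sum_coe_sort A φ]
    have h2 := plancherel_sum hPl g hg hg2 A.card (fun n => w (idx n)) (fun n => f (idx n))
    have h3 : ∀ u : ℝ, ∑ n ∈ range A.card, ((w (idx n) : ℝ) : ℂ) * g (u + f (idx n)) =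
        ∑ i ∈ A, (w i : ℂ) * g (u + f i) := fun u => key fun i => (w i : ℂ) * g (u + f i)
    have h4 : ∀ ξ : ℝ, ∑ n ∈ range A.card, ((w (idx n) : ℝ) : ℂ) * e (ξ * f (idx n)) =
        ∑ i ∈ A, (w i : ℂ) * e (ξ * f i) := fun ξ => key fun i => (w i : ℂ) * e (ξ * f i)
    simp only [h3, h4] at h2
    rw [← h2, ← lintegral_neg_eq_self]
    refine lintegral_congr fun t => ?_
    have h5 : ∀ i, f i - -t = t + f i := fun i => by ring
    simp only [h5]

end TW2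

end Pool.Agent.helper616_TW
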