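import Pool.Agent.helper616_TW.Defs

/-!
# Project TW (helper616): the Fourier transform of a difference of windows
-/

set_option autoImplicit false
set_option maxHeartbeats 4000000

open Finset MeasureTheory Filter Topology
open Pool.Agent.helper616_TS (e)

namespace Pool.Agent.helper616_TW

namespace TW3


/-- the normalised window -/
noncomputable def bb (h : ℝ) : ℝ → ℂ := (Set.Ioc 0 h).indicator (fun _ => ((1 / h : ℝ) : ℂ))

theorem win_eq_bb (h H : ℝ) : win h H = fun y => bb h y - bb H y := by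
  funext y
  unfold win bb
  push_cast
  by_cases h1 : y ∈ Set.Ioc 0 h <;> by_cases h2 : y ∈ Set.Ioc 0 H
  · rw [Set.indicator_of_mem h1, Set.indicator_of_mem h2, Set.indicator_of_mem h1,
      Set.indicator_of_mem h2]
    push_cast; rfl
  · rw [Set.indicator_of_mem h1, Set.indicator_of_notMem h2, Set.indicator_of_mem h1,
      Set.indicator_of_notMem h2]
    push_cast; rfl
  · rw [Set.indicator_of_notMem h1, Set.indicator_of_mem h2, Set.indicator_of_notMem h1,
      Set.indicator_of_mem h2]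
    push_cast; rfl
  · rw [Set.indicator_of_notMem h1, Set.indicator_of_notMem h2, Set.indicator_of_notMem h1,
      Set.indicator_of_notMem h2]
    push_cast; rfl

theorem bb_lp (h : ℝ) (p : ENNReal) : MemLp (bb h) p :=
  memLp_indicator_const p measurableSet_Ioc _ (Or.inr (by
    rw [Real.volume_Ioc]; exact ENNReal.ofReal_ne_top))

theorem bb_int (h : ℝ) : Integrable (bb h) := (memLp_one_iff_integrable).mp (bb_lp h 1)

theorem bb_norm (h : ℝ) (hh : 0 < h) : ∫ y, ‖bb h y‖ = 1 := by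
  have h1 : (fun y => ‖bb h y‖) = (Set.Ioc 0 h).indicator (fun _ => (1 / h : ℝ)) := by
    funext y
    unfold bb
    rw [norm_indicator_eq_indicator_norm]
    congr 1
    funext _
    rw [Complex.norm_real, Real.norm_of_nonneg (by positivity)]
  rw [h1, integral_indicator measurableSet_Ioc, setIntegral_const, measureReal_def,
    Real.volume_Ioc, sub_zero, ENNReal.toReal_ofReal hh.le, smul_eq_mul, mul_one_div_cancel hh.ne']

theorem bb_val (h : ℝ) (hh : 0 < h) : ∫ y, bb h y = 1 := by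
  unfold bb
  rw [integral_indicator measurableSet_Ioc, setIntegral_const, measureReal_def,
    Real.volume_Ioc, sub_zero, ENNReal.toReal_ofReal hh.le, Complex.real_smul,
    ← Complex.ofReal_mul, mul_one_div_cancel hh.ne', Complex.ofReal_one]

theorem bb_cont (ξ : ℝ) : Continuous (fun v : ℝ =>
    Complex.exp (((-2 * Real.pi * v * ξ : ℝ) : ℂ) * Complex.I)) := by
  fun_prop

theorem bb_eint (h ξ : ℝ) : Integrable (fun v : ℝ =>
    Complex.exp (((-2 * Real.pi * v * ξ : ℝ) : ℂ) * Complex.I) • bb h v) := by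
  have h1 : (fun v : ℝ => Complex.exp (((-2 * Real.pi * v * ξ : ℝ) : ℂ) * Complex.I) • bb h v) =
      (Set.Ioc 0 h).indicator (fun v : ℝ =>
        Complex.exp (((-2 * Real.pi * v * ξ : ℝ) : ℂ) * Complex.I) * ((1 / h : ℝ) : ℂ)) := by
    funext v
    unfold bb
    by_cases hv : v ∈ Set.Ioc 0 h
    · rw [Set.indicator_of_mem hv, Set.indicator_of_mem hv, smul_eq_mul]
    · rw [Set.indicator_of_notMem hv, Set.indicator_of_notMem hv, smul_zero]
  rw [h1, integrable_indicator_iff measurableSet_Ioc]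
  exact ((bb_cont ξ).mul continuous_const).integrableOn_Ioc

theorem bb_four (h ξ : ℝ) :
    ∫ v : ℝ, Complex.exp (((-2 * Real.pi * v * ξ : ℝ) : ℂ) * Complex.I) • bb h v =
      ∫ v in Set.Ioc 0 h, Complex.exp (((-2 * Real.pi * v * ξ : ℝ) : ℂ) * Complex.I) *
        ((1 / h : ℝ) : ℂ) := by
  rw [← integral_indicator measurableSet_Ioc]
  congr 1
  funext v
  unfold bb
  by_cases hv : v ∈ Set.Ioc 0 h
  · rw [Set.indicator_of_mem hv, Set.indicator_of_mem hv, smul_eq_mul]
  · rw [Set.indicator_of_notMem hv, Set.indicator_of_notMem hv, smul_zero]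

theorem bb_four1 (h ξ : ℝ) (hh : 0 < h) :
    ‖∫ v : ℝ, Complex.exp (((-2 * Real.pi * v * ξ : ℝ) : ℂ) * Complex.I) • bb h v‖ ≤ 1 := by
  refine (norm_integral_le_integral_norm _).trans ?_
  have h1 : ∀ v : ℝ, ‖Complex.exp (((-2 * Real.pi * v * ξ : ℝ) : ℂ) * Complex.I) • bb h v‖ =
      ‖bb h v‖ := by
    intro v
    rw [norm_smul, Complex.norm_exp_ofReal_mul_I, one_mul]
  simp_rw [h1]
  exact (bb_norm h hh).le

theorem bb_four2 (h ξ : ℝ) (hh : 0 < h) (hξ : ξ ≠ 0) :
    ‖∫ v : ℝ, Complex.exp (((-2 * Real.pi * v * ξ : ℝ) : ℂ) * Complex.I) • bb h v‖ ≤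
      1 / (2 * (h * |ξ|)) := by
  have hpi := Real.pi_gt_three
  have hξ' : 0 < |ξ| := abs_pos.mpr hξ
  set c : ℂ := ((-2 * Real.pi * ξ : ℝ) : ℂ) * Complex.I with hc
  have hc0 : c ≠ 0 := by
    rw [hc]
    refine mul_ne_zero ?_ Complex.I_ne_zero
    have : (-2 * Real.pi * ξ : ℝ) ≠ 0 := mul_ne_zero (by linarith) hξ
    exact_mod_cast this
  have hcn : ‖c‖ = 2 * Real.pi * |ξ| := by
    rw [hc, norm_mul, Complex.norm_I, mul_one, Complex.norm_real, Real.norm_eq_abs, abs_mul,
      abs_mul, abs_neg, abs_two, abs_of_pos Real.pi_pos]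
  have h1 : ∀ v : ℝ, Complex.exp (((-2 * Real.pi * v * ξ : ℝ) : ℂ) * Complex.I) =
      Complex.exp (c * v) := by
    intro v
    congr 1
    rw [hc]; push_cast; ring
  rw [bb_four, integral_mul_const]
  simp_rw [h1]
  rw [← intervalIntegral.integral_of_le hh.le, integral_exp_mul_complex hc0, norm_mul, norm_div,
    hcn, Complex.norm_real, Real.norm_of_nonneg (by positivity)]
  have h2 : ‖Complex.exp (c * (h : ℝ)) - Complex.exp (c * (0 : ℝ))‖ ≤ 2 := by
    have h3 : ∀ x : ℝ, ‖Complex.exp (c * x)‖ = 1 := by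
      intro x
      rw [← h1 x, Complex.norm_exp_ofReal_mul_I]
    calc _ ≤ ‖Complex.exp (c * (h : ℝ))‖ + ‖Complex.exp (c * (0 : ℝ))‖ := norm_sub_le _ _
      _ = 2 := by rw [h3, h3]; norm_num
  calc _ ≤ 2 / (2 * Real.pi * |ξ|) * (1 / h) := by
        refine mul_le_mul_of_nonneg_right ?_ (by positivity)
        exact div_le_div_of_nonneg_right h2 (by positivity)
    _ = 1 / (Real.pi * (h * |ξ|)) := by field_simp
    _ ≤ 1 / (2 * (h * |ξ|)) := by
        apply one_div_le_one_div_of_le (by positivity)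
        refine mul_le_mul_of_nonneg_right (by linarith) (by positivity)

open FourierTransform in
theorem win_four (h H ξ : ℝ) : 𝓕 (win h H) ξ =
    (∫ v : ℝ, Complex.exp (((-2 * Real.pi * v * ξ : ℝ) : ℂ) * Complex.I) • bb h v) -
      ∫ v : ℝ, Complex.exp (((-2 * Real.pi * v * ξ : ℝ) : ℂ) * Complex.I) • bb H v := by
  rw [Real.fourier_real_eq_integral_exp_smul, ← integral_sub (bb_eint h ξ) (bb_eint H ξ), win_eq_bb]
  simp_rw [smul_sub]

theorem win_int (h H : ℝ) : Integrable (win h H) := by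
  rw [win_eq_bb]; exact (bb_int h).sub (bb_int H)

open FourierTransform in
theorem win_small (h H ξ : ℝ) (hh : 0 < h) (hH : h ≤ H) :
    ‖𝓕 (win h H) ξ‖ ≤ 4 * Real.pi * H * |ξ| := by
  have hH0 : 0 < H := lt_of_lt_of_le hh hH
  have hw0 : ∫ v, win h H v = 0 := by
    rw [win_eq_bb, integral_sub (bb_int h) (bb_int H), bb_val h hh, bb_val H hH0, sub_self]
  have hwe : Integrable (fun v : ℝ =>
      Complex.exp (((-2 * Real.pi * v * ξ : ℝ) : ℂ) * Complex.I) • win h H v) := by
    have := (bb_eint h ξ).sub (bb_eint H ξ)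
    rw [win_eq_bb]
    simp_rw [smul_sub]
    exact this
  have h1 : 𝓕 (win h H) ξ = ∫ v : ℝ,
      (Complex.exp (((-2 * Real.pi * v * ξ : ℝ) : ℂ) * Complex.I) - 1) * win h H v := by
    rw [Real.fourier_real_eq_integral_exp_smul]
    have h2 : ∀ v : ℝ, (Complex.exp (((-2 * Real.pi * v * ξ : ℝ) : ℂ) * Complex.I) - 1) *
        win h H v = Complex.exp (((-2 * Real.pi * v * ξ : ℝ) : ℂ) * Complex.I) • win h H v -
          win h H v := by
      intro v
      rw [smul_eq_mul]; ring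
    simp_rw [h2]
    rw [integral_sub hwe (win_int h H), hw0, sub_zero]
  rw [h1]
  have h3 : ∀ v : ℝ, ‖(Complex.exp (((-2 * Real.pi * v * ξ : ℝ) : ℂ) * Complex.I) - 1) *
      win h H v‖ ≤ 2 * Real.pi * H * |ξ| * (‖bb h v‖ + ‖bb H v‖) := by
    intro v
    rw [norm_mul]
    have h4 : ‖Complex.exp (((-2 * Real.pi * v * ξ : ℝ) : ℂ) * Complex.I) - 1‖ ≤
        2 * Real.pi * |v| * |ξ| := by
      have h5 := Real.norm_exp_I_mul_ofReal_sub_one_le (x := -2 * Real.pi * v * ξ)
      rw [mul_comm Complex.I] at h5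
      refine h5.trans (le_of_eq ?_)
      rw [Real.norm_eq_abs, abs_mul, abs_mul, abs_mul, abs_neg, abs_two, abs_of_pos Real.pi_pos]
    have h6 : ‖win h H v‖ ≤ ‖bb h v‖ + ‖bb H v‖ := by
      rw [win_eq_bb]; exact norm_sub_le _ _
    by_cases hv : v ∈ Set.Ioc 0 H
    · have h7 : |v| ≤ H := by rw [abs_of_pos hv.1]; exact hv.2
      have h8 : 2 * Real.pi * |v| * |ξ| ≤ 2 * Real.pi * H * |ξ| := by
        refine mul_le_mul_of_nonneg_right ?_ (abs_nonneg _)
        exact mul_le_mul_of_nonneg_left h7 (by positivity)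
      exact mul_le_mul (h4.trans h8) h6 (norm_nonneg _) (by positivity)
    · have h9 : win h H v = 0 := by
        have hv' : v ∉ Set.Ioc 0 h := fun h10 => hv ⟨h10.1, h10.2.trans hH⟩
        rw [win_eq_bb]
        unfold bb
        simp only
        rw [Set.indicator_of_notMem hv, Set.indicator_of_notMem hv', sub_zero]
      rw [h9, norm_zero, mul_zero]
      positivity
  refine (norm_integral_le_of_norm_le
    (((bb_int h).norm.add (bb_int H).norm).const_mul _) (Filter.Eventually.of_forall h3)).trans ?_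
  rw [integral_const_mul]
  have h4 : ∫ v, (‖bb h v‖ + ‖bb H v‖) = 2 := by
    rw [integral_add (bb_int h).norm (bb_int H).norm, bb_norm h hh, bb_norm H hH0]
    norm_num
  have h5 : ∫ (a : ℝ), ((fun a => ‖bb h a‖) + fun a => ‖bb H a‖) a = 2 := h4
  rw [h5]
  exact le_of_eq (by ring)

open FourierTransform in
theorem win_props (h H : ℝ) (hh : 0 < h) (hH : h ≤ H) :
    Integrable (win h H) ∧ MemLp (win h H) 2 ∧ Measurable (𝓕 (win h H)) ∧ (∀ ξ, ‖𝓕 (win h H) ξ‖ ≤ 2) ∧
      (∀ ξ, ‖𝓕 (win h H) ξ‖ ≤ 4 * Real.pi * H * |ξ|) ∧ ∀ ξ, ξ ≠ 0 → ‖𝓕 (win h H) ξ‖ ≤ 1 / (h * |ξ|) := by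
  have hH0 : 0 < H := lt_of_lt_of_le hh hH
  refine ⟨win_int h H, ?_, ?_, ?_, fun ξ => win_small h H ξ hh hH, ?_⟩
  · rw [win_eq_bb]
    exact (bb_lp h 2).sub (bb_lp H 2)
  · have h1 := VectorFourier.fourierIntegral_continuous (μ := (volume : Measure ℝ))
      (L := innerₗ ℝ) (e := Real.fourierChar) (f := win h H) Real.continuous_fourierChar
      (by exact continuous_inner) (win_int h H)
    exact Continuous.measurable h1
  · intro ξ
    rw [win_four]
    refine (norm_sub_le _ _).trans ?_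
    linarith [bb_four1 h ξ hh, bb_four1 H ξ hH0]
  · intro ξ hξ
    rw [win_four]
    refine (norm_sub_le _ _).trans ?_
    have hξ' : 0 < |ξ| := abs_pos.mpr hξ
    have h1 := bb_four2 h ξ hh hξ
    have h2 := bb_four2 H ξ hH0 hξ
    have h3 : 1 / (2 * (H * |ξ|)) ≤ 1 / (2 * (h * |ξ|)) := by
      apply one_div_le_one_div_of_le (by positivity)
      have := mul_le_mul_of_nonneg_right hH hξ'.le
      linarith
    have h4 : 1 / (2 * (h * |ξ|)) + 1 / (2 * (h * |ξ|)) = 1 / (h * |ξ|) := by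
      field_simp; norm_num
    linarith

end TW3

end Pool.Agent.helper616_TW
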