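import Pool.Agent.helper616_TW.Defs

/-!
# Project TW (helper616): the mean square of the exponential sums over the coefficient
-/

set_option autoImplicit false
set_option maxHeartbeats 4000000

open Finset MeasureTheory Filter Topology
open Pool.Agent.helper616_TS (e)

namespace Pool.Agent.helper616_TW

namespace TW1


theorem ms_e_norm (x : ℝ) : ‖e x‖ = 1 := by
  unfold e
  exact Complex.norm_exp_ofReal_mul_I _

theorem ms_e_cont : Continuous e := by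
  unfold e
  fun_prop

theorem ms_e_mul_conj (x y : ℝ) : e x * (starRingEnd ℂ) (e y) = e (x - y) := by
  unfold e
  rw [← Complex.exp_conj, ← Complex.exp_add]
  congr 1
  simp only [map_mul, Complex.conj_ofReal, Complex.conj_I]
  push_cast
  ring

/-- trivial bound -/
theorem ms_int1 (a b c : ℝ) (hab : a < b) :
    ‖∫ l in Set.Icc a b, e (c * l)‖ ≤ b - a := by
  have h := norm_setIntegral_le_of_norm_le_const (μ := volume) (s := Set.Icc a b)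
    (f := fun l : ℝ => e (c * l)) (C := 1) (by simp) (fun x _ => (ms_e_norm _).le)
  simpa [Real.volume_real_Icc, hab.le] using h

/-- oscillation bound -/
theorem ms_int2 (a b c : ℝ) (hab : a < b) (hc : c ≠ 0) :
    ‖∫ l in Set.Icc a b, e (c * l)‖ ≤ 1 / (Real.pi * |c|) := by
  rw [integral_Icc_eq_integral_Ioc, ← intervalIntegral.integral_of_le hab.le]
  have hpi := Real.pi_pos
  have hc' : ((2 * Real.pi * c : ℝ) : ℂ) * Complex.I ≠ 0 := by
    apply mul_ne_zero _ Complex.I_ne_zero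
    exact_mod_cast mul_ne_zero (mul_ne_zero two_ne_zero hpi.ne') hc
  have h1 : (fun l : ℝ => e (c * l)) =
      fun l : ℝ => Complex.exp ((((2 * Real.pi * c : ℝ) : ℂ) * Complex.I) * (l : ℂ)) := by
    funext l
    unfold e
    congr 1
    push_cast
    ring
  rw [h1, integral_exp_mul_complex hc', norm_div]
  have h2 : ‖((2 * Real.pi * c : ℝ) : ℂ) * Complex.I‖ = 2 * Real.pi * |c| := by
    rw [norm_mul, Complex.norm_I, mul_one, Complex.norm_real, Real.norm_eq_abs, abs_mul, abs_mul,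
      abs_of_pos hpi, abs_two]
  rw [h2]
  have h3 : ∀ t : ℝ, ‖Complex.exp ((((2 * Real.pi * c : ℝ) : ℂ) * Complex.I) * (t : ℂ))‖ = 1 := by
    intro t
    have : (((2 * Real.pi * c : ℝ) : ℂ) * Complex.I) * (t : ℂ) =
        ((2 * Real.pi * c * t : ℝ) : ℂ) * Complex.I := by
      push_cast; ring
    rw [this]
    exact Complex.norm_exp_ofReal_mul_I _
  have h4 := norm_sub_le (Complex.exp ((((2 * Real.pi * c : ℝ) : ℂ) * Complex.I) * (b : ℂ)))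
    (Complex.exp ((((2 * Real.pi * c : ℝ) : ℂ) * Complex.I) * (a : ℂ)))
  rw [h3, h3] at h4
  have hcp : 0 < |c| := abs_pos.mpr hc
  rw [div_le_div_iff₀ (by positivity) (by positivity)]
  have : 0 < Real.pi * |c| := by positivity
  nlinarith

theorem ms_harm (x : ℕ) (P : ℕ) (hx : x ∈ Icc 1 P) :
    ∑ y ∈ Ico 1 x, 1 / ((x : ℝ) - (y : ℝ)) ≤ 1 + Real.log P := by
  rw [mem_Icc] at hx
  have h1 : ∑ y ∈ Ico 1 x, 1 / ((x : ℝ) - (y : ℝ)) = ∑ j ∈ range (x - 1), 1 / ((j : ℝ) + 1) := by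
    refine Finset.sum_nbij' (fun y => x - 1 - y) (fun j => x - 1 - j) ?_ ?_ ?_ ?_ ?_
    · intro y hy
      rw [mem_Ico] at hy
      rw [mem_range]
      omega
    · intro j hj
      rw [mem_range] at hj
      rw [mem_Ico]
      omega
    · intro y hy
      rw [mem_Ico] at hy
      omega
    · intro j hj
      rw [mem_range] at hj
      omega
    · intro y hy
      rw [mem_Ico] at hy
      have : ((x - 1 - y : ℕ) : ℝ) = (x : ℝ) - 1 - y := by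
        rw [Nat.cast_sub (by omega), Nat.cast_sub (by omega)]
        simp
      rw [this]
      congr 1
      ring
  rw [h1]
  have h2 := harmonic_le_one_add_log (x - 1)
  have h3 : ((harmonic (x - 1) : ℚ) : ℝ) = ∑ j ∈ range (x - 1), 1 / ((j : ℝ) + 1) := by
    unfold harmonic
    push_cast
    simp [one_div]
  rw [← h3]
  refine h2.trans ?_
  rcases Nat.eq_zero_or_pos (x - 1) with h0 | h0
  · rw [h0]
    simp
    exact Real.log_natCast_nonneg P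
  · have : Real.log ((x - 1 : ℕ) : ℝ) ≤ Real.log P := by
      apply Real.log_le_log
      · exact_mod_cast h0
      · exact_mod_cast (by omega : x - 1 ≤ P)
    linarith

theorem ms_harm2 (P : ℕ) :
    ∑ x ∈ Icc 1 P, 1 / (x : ℝ) ≤ 1 + Real.log P := by
  have h2 := harmonic_le_one_add_log P
  have h3 : ((harmonic P : ℚ) : ℝ) = ∑ x ∈ Icc 1 P, 1 / (x : ℝ) := by
    rw [harmonic_eq_sum_Icc]
    push_cast
    simp [one_div]
  rw [← h3]
  exact h2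

/-- one row -/
theorem ms_row (k : ℕ) (hk : 2 ≤ k) (a b : ℝ) (hab : a < b) (P : ℕ) (Z ξ : ℝ) (hξ : ξ ≠ 0)
    (hZ : 0 < Z) (hZk : Z ^ k * |ξ| = 1) (x : ℕ) (hx : x ∈ Icc 1 P) :
    ∑ y ∈ Ico 1 x, ‖∫ l in Set.Icc a b, e (ξ * ((x : ℝ) ^ k - (y : ℝ) ^ k) * l)‖ ≤
      (b - a + 1) * (1 + Real.log P) * Z ^ 2 * (1 / (x : ℝ)) := by
  have hx' := mem_Icc.mp hx
  have hx0 : (0 : ℝ) < x := by exact_mod_cast hx'.1
  have hlog : 0 ≤ Real.log P := Real.log_natCast_nonneg P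
  have hba : 0 < b - a := sub_pos.mpr hab
  rcases le_or_gt (x : ℝ) Z with hxZ | hxZ
  · have h1 : ∑ y ∈ Ico 1 x, ‖∫ l in Set.Icc a b, e (ξ * ((x : ℝ) ^ k - (y : ℝ) ^ k) * l)‖ ≤
        ∑ y ∈ Ico 1 x, (b - a) := by
      apply Finset.sum_le_sum
      intro y _
      exact ms_int1 a b _ hab
    refine h1.trans ?_
    rw [Finset.sum_const, Nat.card_Ico, nsmul_eq_mul]
    have h2 : ((x - 1 : ℕ) : ℝ) ≤ x := by exact_mod_cast Nat.sub_le x 1
    have h3 : (x : ℝ) ^ 2 ≤ Z ^ 2 := by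
      apply pow_le_pow_left₀ hx0.le hxZ
    have h4 : (x : ℝ) ≤ Z ^ 2 * (1 / (x : ℝ)) := by
      rw [mul_one_div, le_div_iff₀ hx0]
      nlinarith
    calc ((x - 1 : ℕ) : ℝ) * (b - a) ≤ x * (b - a) := by gcongr
      _ ≤ (Z ^ 2 * (1 / (x : ℝ))) * (b - a) := by gcongr
      _ ≤ (b - a + 1) * (1 + Real.log P) * Z ^ 2 * (1 / (x : ℝ)) := by
        have h5 : 0 ≤ Z ^ 2 * (1 / (x : ℝ)) := by positivity
        have h6 : b - a ≤ (b - a + 1) * (1 + Real.log P) := by nlinarith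
        calc (Z ^ 2 * (1 / (x : ℝ))) * (b - a)
            ≤ (Z ^ 2 * (1 / (x : ℝ))) * ((b - a + 1) * (1 + Real.log P)) := by gcongr
          _ = _ := by ring
  · have hξ0 : 0 < |ξ| := abs_pos.mpr hξ
    -- bound for one term
    have hterm : ∀ y ∈ Ico 1 x, ‖∫ l in Set.Icc a b, e (ξ * ((x : ℝ) ^ k - (y : ℝ) ^ k) * l)‖ ≤
        (Z ^ 2 * (1 / (x : ℝ))) * (1 / ((x : ℝ) - (y : ℝ))) := by
      intro y hy
      rw [mem_Ico] at hy
      have hxy : (0 : ℝ) < (x : ℝ) - y := by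
        have : (y : ℝ) < x := by exact_mod_cast hy.2
        linarith
      have hy0 : (0 : ℝ) ≤ y := by positivity
      -- x^k - y^k ≥ x^(k-1) (x - y)
      obtain ⟨m, rfl⟩ : ∃ m, k = m + 2 := ⟨k - 2, by omega⟩
      have h1 : (x : ℝ) ^ (m + 1) * ((x : ℝ) - y) ≤ (x : ℝ) ^ (m + 2) - (y : ℝ) ^ (m + 2) := by
        have h2 : (y : ℝ) ^ (m + 1) ≤ (x : ℝ) ^ (m + 1) := by
          apply pow_le_pow_left₀ hy0; linarith
        have h3 : (x : ℝ) ^ (m + 2) = (x : ℝ) ^ (m + 1) * x := by ring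
        have h4 : (y : ℝ) ^ (m + 2) = (y : ℝ) ^ (m + 1) * y := by ring
        rw [h3, h4]
        nlinarith
      have hD : 0 < (x : ℝ) ^ (m + 2) - (y : ℝ) ^ (m + 2) := lt_of_lt_of_le (by positivity) h1
      have h5 := ms_int2 a b (ξ * ((x : ℝ) ^ (m + 2) - (y : ℝ) ^ (m + 2))) hab
        (mul_ne_zero hξ hD.ne')
      refine h5.trans ?_
      rw [abs_mul, abs_of_pos hD]
      -- 1 ≤ Z^2 |ξ| x^m
      have h6 : 1 ≤ Z ^ 2 * |ξ| * (x : ℝ) ^ m := by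
        calc (1 : ℝ) = Z ^ 2 * |ξ| * Z ^ m := by rw [← hZk]; ring
          _ ≤ Z ^ 2 * |ξ| * (x : ℝ) ^ m := by gcongr
      have h7 : 1 / (Real.pi * (|ξ| * ((x : ℝ) ^ (m + 2) - (y : ℝ) ^ (m + 2)))) ≤
          1 / (|ξ| * ((x : ℝ) ^ (m + 1) * ((x : ℝ) - y))) := by
        apply one_div_le_one_div_of_le (by positivity)
        have hp : 1 ≤ Real.pi := by linarith [Real.pi_gt_three]
        calc |ξ| * ((x : ℝ) ^ (m + 1) * ((x : ℝ) - y))
            ≤ |ξ| * ((x : ℝ) ^ (m + 2) - (y : ℝ) ^ (m + 2)) := by gcongr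
          _ = 1 * (|ξ| * ((x : ℝ) ^ (m + 2) - (y : ℝ) ^ (m + 2))) := by ring
          _ ≤ Real.pi * (|ξ| * ((x : ℝ) ^ (m + 2) - (y : ℝ) ^ (m + 2))) := by gcongr
      refine h7.trans ?_
      have h9 : Z ^ 2 * (1 / (x : ℝ)) * (1 / ((x : ℝ) - y)) = Z ^ 2 / ((x : ℝ) * ((x : ℝ) - y)) := by
        field_simp
      rw [h9, div_le_div_iff₀ (by positivity) (by positivity)]
      have h8 : 0 < (x : ℝ) * ((x : ℝ) - y) := by positivity
      calc 1 * ((x : ℝ) * ((x : ℝ) - y)) ≤ (Z ^ 2 * |ξ| * (x : ℝ) ^ m) * ((x : ℝ) * ((x : ℝ) - y)) := by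
            gcongr
        _ = Z ^ 2 * (|ξ| * ((x : ℝ) ^ (m + 1) * ((x : ℝ) - y))) := by ring
    calc ∑ y ∈ Ico 1 x, ‖∫ l in Set.Icc a b, e (ξ * ((x : ℝ) ^ k - (y : ℝ) ^ k) * l)‖
        ≤ ∑ y ∈ Ico 1 x, (Z ^ 2 * (1 / (x : ℝ))) * (1 / ((x : ℝ) - (y : ℝ))) :=
          Finset.sum_le_sum hterm
      _ = (Z ^ 2 * (1 / (x : ℝ))) * ∑ y ∈ Ico 1 x, (1 / ((x : ℝ) - (y : ℝ))) := by
          rw [Finset.mul_sum]
      _ ≤ (Z ^ 2 * (1 / (x : ℝ))) * (1 + Real.log P) := by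
          have := ms_harm x P hx
          gcongr
      _ ≤ (Z ^ 2 * (1 / (x : ℝ))) * ((b - a + 1) * (1 + Real.log P)) := by
          have h9 : 1 + Real.log P ≤ (b - a + 1) * (1 + Real.log P) := by nlinarith
          gcongr
      _ = _ := by ring

/-- the triangle part of a symmetric sum -/
theorem ms_sym (P : ℕ) (f : ℕ → ℕ → ℝ) (hf : ∀ x y, f x y = f y x) :
    ∑ x ∈ Icc 1 P, ∑ y ∈ Icc 1 P, f x y =
      ∑ x ∈ Icc 1 P, f x x + 2 * ∑ x ∈ Icc 1 P, ∑ y ∈ Ico 1 x, f x y := by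
  induction P with
  | zero => simp
  | succ n ih =>
    have hI : Icc 1 (n + 1) = insert (n + 1) (Icc 1 n) := by
      ext z; simp only [mem_Icc, mem_insert]; omega
    have hn : n + 1 ∉ Icc 1 n := by simp
    have hJ : Ico 1 (n + 1) = Icc 1 n := by
      ext z; simp only [mem_Icc, mem_Ico]; omega
    rw [hI, Finset.sum_insert hn, Finset.sum_insert hn, Finset.sum_insert hn, Finset.sum_insert hn, hJ]
    have h1 : ∀ x ∈ Icc 1 n, ∑ y ∈ insert (n + 1) (Icc 1 n), f x y =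
        f (n + 1) x + ∑ y ∈ Icc 1 n, f x y := by
      intro x _
      rw [Finset.sum_insert hn, hf x (n + 1)]
    rw [Finset.sum_congr rfl h1, Finset.sum_add_distrib, ih]
    ring

theorem ms_main (k : ℕ) (hk : 2 ≤ k) (a b : ℝ) (hab : a < b) (P : ℕ) (Z ξ : ℝ) (hξ : ξ ≠ 0)
    (hZ : 0 < Z) (hZk : Z ^ k * |ξ| = 1) :
    ∫ l in Set.Icc a b, ‖∑ x ∈ Icc 1 P, e (ξ * (l * (x : ℝ) ^ k))‖ ^ 2 ≤
      (b - a) * P + 2 * ((b - a + 1) * (1 + Real.log P) ^ 2 * Z ^ 2) := by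
  have hlog : 0 ≤ Real.log P := Real.log_natCast_nonneg P
  have hba : 0 < b - a := sub_pos.mpr hab
  have hexp : ∀ l : ℝ, (((‖∑ x ∈ Icc 1 P, e (ξ * (l * (x : ℝ) ^ k))‖ ^ 2 : ℝ)) : ℂ) =
      ∑ x ∈ Icc 1 P, ∑ y ∈ Icc 1 P, e (ξ * ((x : ℝ) ^ k - (y : ℝ) ^ k) * l) := by
    intro l
    push_cast
    rw [← Complex.mul_conj', map_sum, Finset.sum_mul_sum]
    refine Finset.sum_congr rfl fun x _ => Finset.sum_congr rfl fun y _ => ?_
    rw [ms_e_mul_conj]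
    congr 1
    ring
  have hint : ∀ c : ℝ, Integrable (fun l : ℝ => e (c * l)) (volume.restrict (Set.Icc a b)) := by
    intro c
    exact ((ms_e_cont.comp (continuous_const.mul continuous_id)).integrableOn_Icc)
  have h1 : ((∫ l in Set.Icc a b, ‖∑ x ∈ Icc 1 P, e (ξ * (l * (x : ℝ) ^ k))‖ ^ 2 : ℝ) : ℂ) =
      ∑ x ∈ Icc 1 P, ∑ y ∈ Icc 1 P,
        ∫ l in Set.Icc a b, e (ξ * ((x : ℝ) ^ k - (y : ℝ) ^ k) * l) := by
    rw [← integral_complex_ofReal]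
    simp_rw [hexp]
    rw [integral_finsetSum]
    · refine Finset.sum_congr rfl fun x _ => ?_
      rw [integral_finsetSum]
      intro y _
      exact hint _
    · intro x _
      apply integrable_finsetSum
      intro y _
      exact hint _
  have h2 : ∫ l in Set.Icc a b, ‖∑ x ∈ Icc 1 P, e (ξ * (l * (x : ℝ) ^ k))‖ ^ 2 ≤
      ∑ x ∈ Icc 1 P, ∑ y ∈ Icc 1 P,
        ‖∫ l in Set.Icc a b, e (ξ * ((x : ℝ) ^ k - (y : ℝ) ^ k) * l)‖ := by
    calc ∫ l in Set.Icc a b, ‖∑ x ∈ Icc 1 P, e (ξ * (l * (x : ℝ) ^ k))‖ ^ 2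
        ≤ ‖((∫ l in Set.Icc a b, ‖∑ x ∈ Icc 1 P, e (ξ * (l * (x : ℝ) ^ k))‖ ^ 2 : ℝ) : ℂ)‖ := by
          rw [Complex.norm_real]
          exact le_abs_self _
      _ ≤ _ := by
          rw [h1]
          refine (norm_sum_le _ _).trans (Finset.sum_le_sum fun x _ => norm_sum_le _ _)
  refine h2.trans ?_
  rw [ms_sym P (fun x y => ‖∫ l in Set.Icc a b, e (ξ * ((x : ℝ) ^ k - (y : ℝ) ^ k) * l)‖)]
  · have h3 : ∑ x ∈ Icc 1 P, ‖∫ l in Set.Icc a b, e (ξ * ((x : ℝ) ^ k - (x : ℝ) ^ k) * l)‖ ≤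
        (b - a) * P := by
      calc ∑ x ∈ Icc 1 P, ‖∫ l in Set.Icc a b, e (ξ * ((x : ℝ) ^ k - (x : ℝ) ^ k) * l)‖
          ≤ ∑ x ∈ Icc 1 P, (b - a) := Finset.sum_le_sum fun x _ => ms_int1 a b _ hab
        _ = (b - a) * P := by
            rw [Finset.sum_const, Nat.card_Icc, nsmul_eq_mul, Nat.add_sub_cancel, mul_comm]
    have h4 : ∑ x ∈ Icc 1 P, ∑ y ∈ Ico 1 x,
        ‖∫ l in Set.Icc a b, e (ξ * ((x : ℝ) ^ k - (y : ℝ) ^ k) * l)‖ ≤
        (b - a + 1) * (1 + Real.log P) ^ 2 * Z ^ 2 := by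
      calc ∑ x ∈ Icc 1 P, ∑ y ∈ Ico 1 x,
            ‖∫ l in Set.Icc a b, e (ξ * ((x : ℝ) ^ k - (y : ℝ) ^ k) * l)‖
          ≤ ∑ x ∈ Icc 1 P, (b - a + 1) * (1 + Real.log P) * Z ^ 2 * (1 / (x : ℝ)) :=
            Finset.sum_le_sum fun x hx => ms_row k hk a b hab P Z ξ hξ hZ hZk x hx
        _ = (b - a + 1) * (1 + Real.log P) * Z ^ 2 * ∑ x ∈ Icc 1 P, (1 / (x : ℝ)) := by
            rw [Finset.mul_sum]
        _ ≤ (b - a + 1) * (1 + Real.log P) * Z ^ 2 * (1 + Real.log P) := by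
            have := ms_harm2 P
            gcongr
        _ = _ := by ring
    linarith
  · intro x y
    have h5 : (fun l : ℝ => e (ξ * ((y : ℝ) ^ k - (x : ℝ) ^ k) * l)) =
        fun l : ℝ => (starRingEnd ℂ) (e (ξ * ((x : ℝ) ^ k - (y : ℝ) ^ k) * l)) := by
      funext l
      unfold e
      rw [← Complex.exp_conj]
      congr 1
      simp only [map_mul, Complex.conj_ofReal, Complex.conj_I]
      push_cast
      ring
    show ‖∫ l in Set.Icc a b, e (ξ * ((x : ℝ) ^ k - (y : ℝ) ^ k) * l)‖ =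
      ‖∫ l in Set.Icc a b, e (ξ * ((y : ℝ) ^ k - (x : ℝ) ^ k) * l)‖
    rw [h5, integral_conj, RCLike.norm_conj]

theorem ms (k : ℕ) (hk : 2 ≤ k) (a b : ℝ) (ha : 0 < a) (hab : a < b) : ∃ C : ℝ, 0 < C ∧ ∀ P : ℕ, 2 ≤ P → ∀ ξ : ℝ, ξ ≠ 0 →
    ∫⁻ l in Set.Icc a b, ‖∑ x ∈ Icc 1 P, e (ξ * (l * (x : ℝ) ^ k))‖ₑ ^ 2 ≤
      ENNReal.ofReal (C * (Real.log P) ^ 3 * (P + |ξ| ^ (-(2 / (k : ℝ))))) := by
  have hba : 0 < b - a := sub_pos.mpr hab
  refine ⟨100 * (b - a + 1), by positivity, ?_⟩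
  intro P hP ξ hξ
  have hξ0 : 0 < |ξ| := abs_pos.mpr hξ
  have hk0 : (k : ℝ) ≠ 0 := by
    have : k ≠ 0 := by omega
    exact_mod_cast this
  set Z : ℝ := |ξ| ^ (-(1 / (k : ℝ))) with hZdef
  have hZ : 0 < Z := Real.rpow_pos_of_pos hξ0 _
  have hZk : Z ^ k * |ξ| = 1 := by
    rw [hZdef, ← Real.rpow_natCast, ← Real.rpow_mul hξ0.le]
    have : -(1 / (k : ℝ)) * (k : ℝ) = -1 := by field_simp
    rw [this, Real.rpow_neg_one, inv_mul_cancel₀ hξ0.ne']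
  have hZ2 : |ξ| ^ (-(2 / (k : ℝ))) = Z ^ 2 := by
    rw [hZdef, ← Real.rpow_natCast, ← Real.rpow_mul hξ0.le]
    congr 1
    push_cast
    ring
  rw [hZ2]
  have hmain := ms_main k hk a b hab P Z ξ hξ hZ hZk
  have hcont : Continuous fun l : ℝ => ‖∑ x ∈ Icc 1 P, e (ξ * (l * (x : ℝ) ^ k))‖ ^ 2 := by
    have := ms_e_cont
    fun_prop
  have hl : ∫⁻ l in Set.Icc a b, ‖∑ x ∈ Icc 1 P, e (ξ * (l * (x : ℝ) ^ k))‖ₑ ^ 2 =
      ENNReal.ofReal (∫ l in Set.Icc a b, ‖∑ x ∈ Icc 1 P, e (ξ * (l * (x : ℝ) ^ k))‖ ^ 2) := by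
    rw [ofReal_integral_eq_lintegral_ofReal]
    · refine lintegral_congr fun l => ?_
      rw [ENNReal.ofReal_pow (norm_nonneg _), ofReal_norm]
    · exact hcont.integrableOn_Icc
    · exact Filter.Eventually.of_forall fun l => by positivity
  rw [hl]
  apply ENNReal.ofReal_le_ofReal
  refine hmain.trans ?_
  -- numeric part
  have hL2 : (0.6931471803 : ℝ) < Real.log 2 := Real.log_two_gt_d9
  have hLP : Real.log 2 ≤ Real.log P := by
    apply Real.log_le_log (by norm_num)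
    exact_mod_cast hP
  set L := Real.log P with hL
  have hL' : (0.69 : ℝ) < L := by linarith
  have hP0 : (0 : ℝ) ≤ P := by positivity
  have hL3 : (0.32 : ℝ) ≤ L ^ 3 := by
    have : (0.69 : ℝ) ^ 3 ≤ L ^ 3 := by gcongr
    norm_num at this ⊢
    linarith
  have h1 : (b - a) * P ≤ 100 * (b - a + 1) * L ^ 3 * P := by
    have : (b - a) ≤ 100 * (b - a + 1) * L ^ 3 := by nlinarith
    gcongr
  have h2 : 2 * ((b - a + 1) * (1 + L) ^ 2 * Z ^ 2) ≤ 100 * (b - a + 1) * L ^ 3 * Z ^ 2 := by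
    have h3 : 2 * (1 + L) ^ 2 ≤ 100 * L ^ 3 := by
      have h4 : 1 + L ≤ 2.5 * L := by linarith
      have h5 : (1 + L) ^ 2 ≤ (2.5 * L) ^ 2 := by gcongr
      have h6 : L ^ 2 * 0.69 ≤ L ^ 2 * L := by gcongr
      nlinarith
    calc 2 * ((b - a + 1) * (1 + L) ^ 2 * Z ^ 2) = (2 * (1 + L) ^ 2) * ((b - a + 1) * Z ^ 2) := by ring
      _ ≤ (100 * L ^ 3) * ((b - a + 1) * Z ^ 2) := by gcongr
      _ = _ := by ring
  calc (b - a) * P + 2 * ((b - a + 1) * (1 + L) ^ 2 * Z ^ 2)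
      ≤ 100 * (b - a + 1) * L ^ 3 * P + 100 * (b - a + 1) * L ^ 3 * Z ^ 2 := by linarith
    _ = 100 * (b - a + 1) * L ^ 3 * (P + Z ^ 2) := by ring

end TW1

end Pool.Agent.helper616_TW
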