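import Pool.Agent.helper616_TW.Defs
import Pool.Agent.helper616_TW.TW1
import Pool.Agent.helper616_TS.TU5

/-!
# Project TW (helper616): several variables
-/

set_option autoImplicit false
set_option maxHeartbeats 4000000

open Finset MeasureTheory Filter Topology
open Pool.Agent.helper616_TS (e)

namespace Pool.Agent.helper616_TW

open TW1 (ms)
open Pool.Agent.helper616_TS.TU5 (lint_prod)

namespace TW4


lemma pm_e_sum {s : ℕ} (f : Fin s → ℝ) : e (∑ i, f i) = ∏ i, e (f i) := by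
  unfold e
  rw [← Complex.exp_sum]
  congr 1
  push_cast
  rw [Finset.mul_sum, Finset.sum_mul]

lemma pm_prod {s : ℕ} (k P : ℕ) (l : Fin s → ℝ) (ξ : ℝ) :
    ∑ x ∈ box s P, e (ξ * F k l x) = ∏ i, ∑ x ∈ Icc 1 P, e (ξ * (l i * (x : ℝ) ^ k)) := by
  rw [Finset.prod_univ_sum]
  unfold box
  refine Finset.sum_congr rfl fun x _ => ?_
  rw [← pm_e_sum]
  unfold F
  rw [Finset.mul_sum]

lemma pm_cube (s : ℕ) (a b : ℝ) : cube s a b = Set.pi Set.univ (fun _ : Fin s => Set.Icc a b) := by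
  ext l
  constructor
  · intro h i _
    exact h i
  · intro h i
    exact h i (Set.mem_univ i)

lemma pm_cube_meas (s : ℕ) (a b : ℝ) : MeasurableSet (cube s a b) := by
  rw [pm_cube]
  exact MeasurableSet.univ_pi fun _ => measurableSet_Icc

lemma pm_enorm_prod {s : ℕ} (f : Fin s → ℂ) : ‖∏ i, f i‖ₑ = ∏ i, ‖f i‖ₑ := by
  induction s with
  | zero => simp
  | succ n ih => rw [Fin.prod_univ_succ, Fin.prod_univ_succ, enorm_mul, ih]

lemma pm_e_meas : Measurable e := by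
  unfold e
  fun_prop

lemma pm_g_meas (k P : ℕ) (ξ : ℝ) :
    Measurable fun y : ℝ => ‖∑ x ∈ Icc 1 P, e (ξ * (y * (x : ℝ) ^ k))‖ₑ ^ 2 := by
  have h : Measurable fun y : ℝ => ∑ x ∈ Icc 1 P, e (ξ * (y * (x : ℝ) ^ k)) := by
    refine Finset.measurable_sum _ fun x _ => ?_
    exact pm_e_meas.comp (by fun_prop)
  exact h.enorm.pow_const 2

lemma pm_lint (s k P : ℕ) (a b ξ : ℝ) :
    ∫⁻ l in cube s a b, ‖∑ x ∈ box s P, e (ξ * F k l x)‖ₑ ^ 2 =
      (∫⁻ y in Set.Icc a b, ‖∑ x ∈ Icc 1 P, e (ξ * (y * (x : ℝ) ^ k))‖ₑ ^ 2) ^ s := by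
  classical
  rw [← lintegral_indicator (pm_cube_meas s a b)]
  have h1 : ∀ l : Fin s → ℝ, (cube s a b).indicator (fun l => ‖∑ x ∈ box s P, e (ξ * F k l x)‖ₑ ^ 2) l
      = ∏ j, (fun _ : Fin s => (Set.Icc a b).indicator
          (fun y => ‖∑ x ∈ Icc 1 P, e (ξ * (y * (x : ℝ) ^ k))‖ₑ ^ 2)) j (l j) := by
    intro l
    by_cases hl : l ∈ cube s a b
    · rw [Set.indicator_of_mem hl, pm_prod, pm_enorm_prod, ← Finset.prod_pow]
      refine Finset.prod_congr rfl fun i _ => ?_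
      have : l i ∈ Set.Icc a b := hl i
      simp only []
      rw [Set.indicator_of_mem this]
    · rw [Set.indicator_of_notMem hl]
      have : ∃ i, l i ∉ Set.Icc a b := by
        by_contra hcon
        push Not at hcon
        exact hl hcon
      obtain ⟨i, hi⟩ := this
      symm
      refine Finset.prod_eq_zero (Finset.mem_univ i) ?_
      simp only []
      rw [Set.indicator_of_notMem hi]
  simp_rw [h1]
  rw [lint_prod s _ (fun _ => (pm_g_meas k P ξ).indicator measurableSet_Icc)]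
  rw [Finset.prod_const, Finset.card_univ, Fintype.card_fin,
    lintegral_indicator measurableSet_Icc]

lemma pm_norm_e (x : ℝ) : ‖e x‖ = 1 := by
  unfold e
  exact Complex.norm_exp_ofReal_mul_I _

lemma pm_box_card (s P : ℕ) : (box s P).card = P ^ s := by
  unfold box
  rw [Fintype.card_piFinset]
  simp

/-- the Fourier transform of the counting function, averaged over the coefficients -/
theorem prodms (k : ℕ) (hk : 2 ≤ k) (a b : ℝ) (ha : 0 < a) (hab : a < b) (s : ℕ) : ∃ C : ℝ, 0 < C ∧ ∀ P : ℕ, 2 ≤ P →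
    (∀ ξ : ℝ, ξ ≠ 0 → ∫⁻ l in cube s a b, ‖∑ x ∈ box s P, e (ξ * F k l x)‖ₑ ^ 2 ≤
      ENNReal.ofReal (C * (Real.log P) ^ (3 * s) * ((P : ℝ) ^ s + |ξ| ^ (-(2 * s / (k : ℝ)))))) ∧
    ∀ ξ : ℝ, ∫⁻ l in cube s a b, ‖∑ x ∈ box s P, e (ξ * F k l x)‖ₑ ^ 2 ≤ ENNReal.ofReal (C * (P : ℝ) ^ (2 * s)) := by
  obtain ⟨C1, hC1, hms⟩ := ms k hk a b ha hab
  have hba : 0 < b - a := by linarith
  refine ⟨C1 ^ s * 2 ^ (s - 1) + (b - a) ^ s, by positivity, fun P hP => ⟨fun ξ hξ => ?_, fun ξ => ?_⟩⟩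
  · have hlog : 0 ≤ Real.log P := Real.log_natCast_nonneg P
    have hξ0 : 0 < |ξ| := abs_pos.mpr hξ
    have hv : 0 ≤ |ξ| ^ (-(2 / (k : ℝ))) := (Real.rpow_pos_of_pos hξ0 _).le
    have hPn : (0 : ℝ) ≤ (P : ℝ) := Nat.cast_nonneg P
    rw [pm_lint]
    calc (∫⁻ y in Set.Icc a b, ‖∑ x ∈ Icc 1 P, e (ξ * (y * (x : ℝ) ^ k))‖ₑ ^ 2) ^ s
        ≤ (ENNReal.ofReal (C1 * (Real.log P) ^ 3 * (P + |ξ| ^ (-(2 / (k : ℝ)))))) ^ s := by
          gcongr
          exact hms P hP ξ hξ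
      _ = ENNReal.ofReal ((C1 * (Real.log P) ^ 3 * (P + |ξ| ^ (-(2 / (k : ℝ))))) ^ s) := by
          rw [ENNReal.ofReal_pow (by positivity)]
      _ ≤ _ := by
          apply ENNReal.ofReal_le_ofReal
          have h1 : ((P : ℝ) + |ξ| ^ (-(2 / (k : ℝ)))) ^ s ≤
              2 ^ (s - 1) * ((P : ℝ) ^ s + (|ξ| ^ (-(2 / (k : ℝ)))) ^ s) :=
            add_pow_le hPn hv s
          have h2 : (|ξ| ^ (-(2 / (k : ℝ)))) ^ s = |ξ| ^ (-(2 * s / (k : ℝ))) := by
            rw [← Real.rpow_natCast, ← Real.rpow_mul hξ0.le]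
            congr 1
            ring
          rw [h2] at h1
          rw [mul_pow, mul_pow, ← pow_mul]
          have hlp : 0 ≤ Real.log P ^ (3 * s) := pow_nonneg hlog _
          have hw : 0 ≤ (P : ℝ) ^ s + |ξ| ^ (-(2 * s / (k : ℝ))) := by positivity
          calc C1 ^ s * Real.log P ^ (3 * s) * ((P : ℝ) + |ξ| ^ (-(2 / (k : ℝ)))) ^ s
              ≤ C1 ^ s * Real.log P ^ (3 * s) *
                (2 ^ (s - 1) * ((P : ℝ) ^ s + |ξ| ^ (-(2 * s / (k : ℝ))))) := by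
                gcongr
            _ = (C1 ^ s * 2 ^ (s - 1)) * Real.log P ^ (3 * s) *
                ((P : ℝ) ^ s + |ξ| ^ (-(2 * s / (k : ℝ)))) := by ring
            _ ≤ _ := by
                gcongr
                have : 0 ≤ (b - a) ^ s := by positivity
                linarith
  · have hb : ∀ l : Fin s → ℝ, ‖∑ x ∈ box s P, e (ξ * F k l x)‖ₑ ^ 2 ≤ ENNReal.ofReal ((P : ℝ) ^ (2 * s)) := by
      intro l
      have h1 : ‖∑ x ∈ box s P, e (ξ * F k l x)‖ ≤ (P : ℝ) ^ s := by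
        refine (norm_sum_le _ _).trans ?_
        simp only [pm_norm_e, Finset.sum_const, nsmul_eq_mul, mul_one]
        rw [pm_box_card]
        push_cast
        exact le_refl _
      have h2 : ‖∑ x ∈ box s P, e (ξ * F k l x)‖ₑ ≤ ENNReal.ofReal ((P : ℝ) ^ s) := by
        rw [← ofReal_norm]
        exact ENNReal.ofReal_le_ofReal h1
      calc ‖∑ x ∈ box s P, e (ξ * F k l x)‖ₑ ^ 2 ≤ (ENNReal.ofReal ((P : ℝ) ^ s)) ^ 2 := by
            gcongr
        _ = ENNReal.ofReal ((P : ℝ) ^ (2 * s)) := by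
            rw [← ENNReal.ofReal_pow (by positivity), ← pow_mul, mul_comm s 2]
    calc ∫⁻ l in cube s a b, ‖∑ x ∈ box s P, e (ξ * F k l x)‖ₑ ^ 2
        ≤ ∫⁻ _ in cube s a b, ENNReal.ofReal ((P : ℝ) ^ (2 * s)) := lintegral_mono fun l => hb l
      _ = ENNReal.ofReal ((P : ℝ) ^ (2 * s)) * volume (cube s a b) := by
          rw [setLIntegral_const]
      _ = ENNReal.ofReal ((P : ℝ) ^ (2 * s)) * ENNReal.ofReal ((b - a) ^ s) := by
          congr 1
          rw [pm_cube, volume_pi_pi]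
          simp only [Real.volume_Icc, Finset.prod_const, Finset.card_univ, Fintype.card_fin]
          rw [ENNReal.ofReal_pow hba.le]
      _ = ENNReal.ofReal ((P : ℝ) ^ (2 * s) * (b - a) ^ s) := by
          rw [ENNReal.ofReal_mul (by positivity)]
      _ ≤ _ := by
          apply ENNReal.ofReal_le_ofReal
          rw [mul_comm]
          gcongr
          have : 0 ≤ C1 ^ s * 2 ^ (s - 1) := by positivity
          linarith

end TW4

end Pool.Agent.helper616_TW
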