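import Pool.Agent.helper616_TW.Defs
import Pool.Agent.helper616_TW.TW2
import Pool.Agent.helper616_TW.TW3
import Pool.Agent.helper616_TW.TW4

/-!
# Project TW (helper616): the variance
-/

set_option autoImplicit false
set_option maxHeartbeats 4000000

open Finset MeasureTheory Filter Topology
open Pool.Agent.helper616_TS (e)

namespace Pool.Agent.helper616_TW

open TW2 (planch)
open TW3 (win_props)
open TW4 (prodms)

namespace TW5


open scoped ENNReal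

theorem tw5_sym (I g : ℝ → ℝ≥0∞) (h : ∀ ξ, ξ ≠ 0 → I ξ ≤ g |ξ|) :
    ∫⁻ ξ, I ξ ≤ 2 * ∫⁻ u in Set.Ioi 0, g u := by
  have h1 : ∫⁻ ξ in Set.Iio 0, I ξ ≤ ∫⁻ u in Set.Ioi 0, g u := by
    calc ∫⁻ ξ in Set.Iio 0, I ξ ≤ ∫⁻ ξ in Set.Iio 0, g (-ξ) := by
          refine setLIntegral_mono' measurableSet_Iio fun x hx => ?_
          have hx0 : x < 0 := hx
          have := h x hx0.ne
          rwa [abs_of_neg hx0] at this
      _ = ∫⁻ ξ in (Neg.neg ⁻¹' (Set.Ioi (0 : ℝ))), g (-ξ) := by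
          congr 2
          ext x
          simp
      _ = ∫⁻ u in Set.Ioi 0, g u :=
          (Measure.measurePreserving_neg (volume : Measure ℝ)).setLIntegral_comp_preimage_emb
            (MeasurableEquiv.neg ℝ).measurableEmbedding g (Set.Ioi 0)
  have h2 : ∫⁻ ξ in Set.Ioi 0, I ξ ≤ ∫⁻ u in Set.Ioi 0, g u := by
    refine setLIntegral_mono' measurableSet_Ioi fun x hx => ?_
    have hx0 : 0 < x := hx
    have := h x hx0.ne'
    rwa [abs_of_pos hx0] at this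
  rw [← lintegral_add_compl I (measurableSet_Iio (a := (0 : ℝ))), Set.compl_Iio,
    ← setLIntegral_congr (Ioi_ae_eq_Ici (a := (0 : ℝ)) (μ := volume)), two_mul]
  exact add_le_add h1 h2

theorem tw5_a (A p : ℝ) :
    ∫⁻ u : ℝ, (Set.Ioc 0 p).indicator (fun _ => ENNReal.ofReal A) u =
      ENNReal.ofReal A * ENNReal.ofReal p := by
  rw [lintegral_indicator measurableSet_Ioc, lintegral_const, Measure.restrict_apply_univ,
    Real.volume_Ioc, sub_zero]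

theorem tw5_b (A p q : ℝ) (hA : 0 ≤ A) (hp : 0 < p) (hpq : p ≤ q) :
    ∫⁻ u : ℝ, (Set.Ioc p q).indicator (fun u => ENNReal.ofReal (A * u⁻¹)) u =
      ENNReal.ofReal (A * Real.log (q / p)) := by
  have h0 : (0 : ℝ) ∉ Set.uIcc p q := by
    rw [Set.uIcc_of_le hpq]
    intro h
    exact absurd h.1 (not_le.2 hp)
  have hii : IntervalIntegrable (fun u : ℝ => u⁻¹) volume p q := by
    apply ContinuousOn.intervalIntegrable
    apply ContinuousOn.inv₀ continuousOn_id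
    intro x hx hx0
    simp only [id] at hx0
    rw [hx0] at hx
    exact h0 hx
  have hint : IntegrableOn (fun u : ℝ => A * u⁻¹) (Set.Ioc p q) :=
    ((intervalIntegrable_iff_integrableOn_Ioc_of_le hpq).1 hii).const_mul A
  rw [lintegral_indicator measurableSet_Ioc, ← ofReal_integral_eq_lintegral_ofReal hint,
    ← intervalIntegral.integral_of_le hpq, intervalIntegral.integral_const_mul,
    integral_inv h0]
  filter_upwards [ae_restrict_mem measurableSet_Ioc] with u hu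
  have : 0 < u := hp.trans hu.1
  simp only [Pi.zero_apply]
  positivity

theorem tw5_c (A c a : ℝ) (hA : 0 ≤ A) (hc : 0 < c) (ha : a < -1) :
    ∫⁻ u : ℝ, (Set.Ioi c).indicator (fun u => ENNReal.ofReal (A * u ^ a)) u =
      ENNReal.ofReal (A * (-c ^ (a + 1) / (a + 1))) := by
  have hint : IntegrableOn (fun u : ℝ => A * u ^ a) (Set.Ioi c) :=
    (integrableOn_Ioi_rpow_of_lt ha hc).const_mul A
  rw [lintegral_indicator measurableSet_Ioi, ← ofReal_integral_eq_lintegral_ofReal hint,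
    integral_const_mul, integral_Ioi_rpow_of_lt ha hc]
  filter_upwards [ae_restrict_mem measurableSet_Ioi] with u hu
  have : 0 < u := hc.trans hu
  simp only [Pi.zero_apply]
  positivity

theorem tw5_meas (f : ℝ → ℝ) (hf : Measurable f) (S : Set ℝ) (hS : MeasurableSet S) :
    Measurable (S.indicator (fun u => ENNReal.ofReal (f u))) :=
  (ENNReal.measurable_ofReal.comp hf).indicator hS

/-- the real inequality for the sum of the five terms -/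
theorem tw5_real (k : ℕ) (hk : 2 ≤ k) (h C0 : ℝ) (hh : 0 < h) (hC0 : 0 < C0) (P : ℕ) (hP : 2 ≤ P)
    (H : ℝ) (hH1 : 1 ≤ H) (hHP : H ≤ (P : ℝ) ^ k) :
    2 * ((16 * Real.pi ^ 2 * H ^ 2 * (((P : ℝ) ^ k)⁻¹) ^ 2 * (C0 * (P : ℝ) ^ (2 * (k + 1)))) *
        ((P : ℝ) ^ k)⁻¹ + 4 * (C0 * Real.log P ^ (3 * (k + 1)) * (P : ℝ) ^ (k + 1)) +
      (C0 * Real.log P ^ (3 * (k + 1)) * (P : ℝ) ^ (k + 1)) * (h ^ 2)⁻¹ +
      C0 * Real.log P ^ (3 * (k + 1)) * (16 * Real.pi ^ 2 * H ^ (1 + 2 / (k : ℝ))) *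
        Real.log (H⁻¹ / ((P : ℝ) ^ k)⁻¹) +
      4 * (C0 * Real.log P ^ (3 * (k + 1))) * H ^ (1 + 2 / (k : ℝ))) ≤
    2 * C0 * (16 * Real.pi ^ 2 / Real.log 2 ^ (3 * k + 4) + (4 + (h ^ 2)⁻¹) / Real.log 2 +
      16 * Real.pi ^ 2 * k + 4 / Real.log 2) * Real.log P ^ (3 * k + 4) *
      ((P : ℝ) ^ (k + 1) + H ^ (1 + 2 / (k : ℝ))) := by
  have hk0 : (0 : ℝ) < k := by exact_mod_cast (by omega : 0 < k)
  have hk2 : (2 : ℝ) ≤ k := by exact_mod_cast hk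
  have hP2 : (2 : ℝ) ≤ P := by exact_mod_cast hP
  have hP0 : (0 : ℝ) < P := by linarith
  have hH0 : 0 < H := by linarith
  have hl2 : 0 < Real.log 2 := Real.log_pos one_lt_two
  have hL : Real.log 2 ≤ Real.log P := Real.log_le_log two_pos hP2
  have hL0 : 0 < Real.log P := hl2.trans_le hL
  obtain ⟨Q, hQ⟩ : ∃ Q, Q = (P : ℝ) ^ k := ⟨_, rfl⟩
  have hQ0 : 0 < Q := hQ ▸ by positivity
  have hθ1 : 2 / (k : ℝ) ≤ 1 := by rw [div_le_one hk0]; exact hk2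
  have hQθ : Q ^ (2 / (k : ℝ)) = (P : ℝ) ^ 2 := by
    rw [hQ, ← Real.rpow_natCast, ← Real.rpow_mul hP0.le, mul_div_cancel₀ _ hk0.ne',
      ← Real.rpow_natCast]
    norm_num
  obtain ⟨X, hX⟩ : ∃ X, X = H ^ (1 + 2 / (k : ℝ)) := ⟨_, rfl⟩
  have hX0 : 0 < X := hX ▸ by positivity
  -- first term
  have e1 : H ^ 2 * (P : ℝ) ^ 2 ≤ X * Q := by
    have h1 : H ^ (1 - 2 / (k : ℝ)) ≤ Q ^ (1 - 2 / (k : ℝ)) :=
      Real.rpow_le_rpow hH0.le (hQ ▸ hHP) (by linarith)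
    have h2 : H ^ (1 - 2 / (k : ℝ)) * X = H ^ 2 := by
      rw [hX, ← Real.rpow_add hH0, ← Real.rpow_natCast]
      congr 1
      push_cast
      ring
    have h3 : Q ^ (1 - 2 / (k : ℝ)) * (P : ℝ) ^ 2 = Q := by
      rw [← hQθ, ← Real.rpow_add hQ0]
      rw [sub_add_cancel, Real.rpow_one]
    calc H ^ 2 * (P : ℝ) ^ 2 = H ^ (1 - 2 / (k : ℝ)) * (X * (P : ℝ) ^ 2) := by rw [← h2]; ring
      _ ≤ Q ^ (1 - 2 / (k : ℝ)) * (X * (P : ℝ) ^ 2) :=
          mul_le_mul_of_nonneg_right h1 (by positivity)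
      _ = X * (Q ^ (1 - 2 / (k : ℝ)) * (P : ℝ) ^ 2) := by ring
      _ = X * Q := by rw [h3]
  have hPk : (P : ℝ) ^ (2 * (k + 1)) = Q ^ 2 * (P : ℝ) ^ 2 := by
    rw [hQ, ← pow_mul, ← pow_add]
    congr 1
    ring
  have t1 : (16 * Real.pi ^ 2 * H ^ 2 * (Q⁻¹) ^ 2 * (C0 * (P : ℝ) ^ (2 * (k + 1)))) * Q⁻¹ ≤
      16 * Real.pi ^ 2 * C0 * X := by
    rw [hPk]
    calc (16 * Real.pi ^ 2 * H ^ 2 * (Q⁻¹) ^ 2 * (C0 * (Q ^ 2 * (P : ℝ) ^ 2))) * Q⁻¹
        = 16 * Real.pi ^ 2 * C0 * ((H ^ 2 * (P : ℝ) ^ 2) * Q⁻¹) := by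
          field_simp
      _ ≤ 16 * Real.pi ^ 2 * C0 * ((X * Q) * Q⁻¹) := by
          apply mul_le_mul_of_nonneg_left _ (by positivity)
          exact mul_le_mul_of_nonneg_right e1 (by positivity)
      _ = 16 * Real.pi ^ 2 * C0 * X := by
          field_simp
  -- the logarithm
  have t4 : Real.log (H⁻¹ / Q⁻¹) ≤ k * Real.log P := by
    have h1 : H⁻¹ / Q⁻¹ = Q / H := by field_simp
    rw [h1, Real.log_div hQ0.ne' hH0.ne', hQ, Real.log_pow]
    have := Real.log_nonneg hH1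
    linarith
  -- powers of the logarithm
  obtain ⟨M, hM⟩ : ∃ M, M = Real.log P ^ (3 * k + 4) := ⟨_, rfl⟩
  have hM0 : 0 < M := hM ▸ by positivity
  have hML : M = Real.log P ^ (3 * (k + 1)) * Real.log P := by
    rw [hM, ← pow_succ]
    congr 1
  have hM1 : Real.log P ^ (3 * (k + 1)) ≤ M / Real.log 2 := by
    rw [le_div_iff₀ hl2, hML]
    exact mul_le_mul_of_nonneg_left hL (by positivity)
  have hM2 : 1 ≤ M / Real.log 2 ^ (3 * k + 4) := by
    rw [le_div_iff₀ (by positivity), one_mul, hM]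
    exact pow_le_pow_left₀ hl2.le hL _
  rw [← hQ, ← hX, ← hM]
  obtain ⟨L', hL'⟩ : ∃ L', L' = Real.log P ^ (3 * (k + 1)) := ⟨_, rfl⟩
  have hL'0 : 0 < L' := hL' ▸ by positivity
  rw [← hL'] at hM1 hML ⊢
  obtain ⟨Y, hY⟩ : ∃ Y, Y = (P : ℝ) ^ (k + 1) := ⟨_, rfl⟩
  have hY0 : 0 < Y := hY ▸ by positivity
  rw [← hY]
  have hpi : 0 < Real.pi := Real.pi_pos
  have b1 : 16 * Real.pi ^ 2 * C0 * X ≤
      C0 * (16 * Real.pi ^ 2 / Real.log 2 ^ (3 * k + 4)) * M * (Y + X) := by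
    calc 16 * Real.pi ^ 2 * C0 * X = 16 * Real.pi ^ 2 * C0 * 1 * X := by ring
      _ ≤ 16 * Real.pi ^ 2 * C0 * (M / Real.log 2 ^ (3 * k + 4)) * X := by
          apply mul_le_mul_of_nonneg_right _ hX0.le
          exact mul_le_mul_of_nonneg_left hM2 (by positivity)
      _ ≤ 16 * Real.pi ^ 2 * C0 * (M / Real.log 2 ^ (3 * k + 4)) * (Y + X) := by
          apply mul_le_mul_of_nonneg_left _ (by positivity)
          linarith
      _ = _ := by ring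
  have b2 : 4 * (C0 * L' * Y) + (C0 * L' * Y) * (h ^ 2)⁻¹ ≤
      C0 * ((4 + (h ^ 2)⁻¹) / Real.log 2) * M * (Y + X) := by
    calc 4 * (C0 * L' * Y) + (C0 * L' * Y) * (h ^ 2)⁻¹ = C0 * (4 + (h ^ 2)⁻¹) * L' * Y := by ring
      _ ≤ C0 * (4 + (h ^ 2)⁻¹) * (M / Real.log 2) * Y := by
          apply mul_le_mul_of_nonneg_right _ hY0.le
          exact mul_le_mul_of_nonneg_left hM1 (by positivity)
      _ ≤ C0 * (4 + (h ^ 2)⁻¹) * (M / Real.log 2) * (Y + X) := by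
          apply mul_le_mul_of_nonneg_left _ (by positivity)
          linarith
      _ = _ := by ring
  have b3 : C0 * L' * (16 * Real.pi ^ 2 * X) * Real.log (H⁻¹ / Q⁻¹) ≤
      C0 * (16 * Real.pi ^ 2 * k) * M * (Y + X) := by
    calc C0 * L' * (16 * Real.pi ^ 2 * X) * Real.log (H⁻¹ / Q⁻¹)
        ≤ C0 * L' * (16 * Real.pi ^ 2 * X) * (k * Real.log P) :=
          mul_le_mul_of_nonneg_left t4 (by positivity)
      _ = C0 * (16 * Real.pi ^ 2 * k) * M * X := by rw [hML]; ring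
      _ ≤ _ := by
          apply mul_le_mul_of_nonneg_left _ (by positivity)
          linarith
  have b4 : 4 * (C0 * L') * X ≤ C0 * (4 / Real.log 2) * M * (Y + X) := by
    calc 4 * (C0 * L') * X = 4 * C0 * L' * X := by ring
      _ ≤ 4 * C0 * (M / Real.log 2) * X := by
          apply mul_le_mul_of_nonneg_right _ hX0.le
          exact mul_le_mul_of_nonneg_left hM1 (by positivity)
      _ ≤ 4 * C0 * (M / Real.log 2) * (Y + X) := by
          apply mul_le_mul_of_nonneg_left _ (by positivity)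
          linarith
      _ = _ := by ring
  calc _ ≤ 2 * (C0 * (16 * Real.pi ^ 2 / Real.log 2 ^ (3 * k + 4)) * M * (Y + X) +
        C0 * ((4 + (h ^ 2)⁻¹) / Real.log 2) * M * (Y + X) +
        C0 * (16 * Real.pi ^ 2 * k) * M * (Y + X) + C0 * (4 / Real.log 2) * M * (Y + X)) := by
        linarith
    _ = _ := by ring

/-- the pointwise bound -/
theorem tw5_pt (k : ℕ) (hk : 2 ≤ k) (h C0 : ℝ) (hh : 0 < h) (hC0 : 0 < C0) (P : ℕ) (hP : 2 ≤ P)
    (H : ℝ) (hH1 : 1 ≤ H) (W u : ℝ) (G : ℝ≥0∞) (hW0 : 0 ≤ W) (hu : 0 < u) (hW2 : W ≤ 2)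
    (hWH : W ≤ 4 * Real.pi * H * u) (hWh : W ≤ 1 / (h * u))
    (hG1 : G ≤ ENNReal.ofReal (C0 * Real.log P ^ (3 * (k + 1)) * ((P : ℝ) ^ (k + 1) +
      u ^ (-(2 * ((k + 1 : ℕ) : ℝ) / (k : ℝ))))))
    (hG2 : G ≤ ENNReal.ofReal (C0 * (P : ℝ) ^ (2 * (k + 1)))) :
    ENNReal.ofReal (W ^ 2) * G ≤
      (Set.Ioc 0 ((P : ℝ) ^ k)⁻¹).indicator (fun _ => ENNReal.ofReal
        (16 * Real.pi ^ 2 * H ^ 2 * (((P : ℝ) ^ k)⁻¹) ^ 2 * (C0 * (P : ℝ) ^ (2 * (k + 1))))) u +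
      ((Set.Ioc 0 1).indicator (fun _ => ENNReal.ofReal
        (4 * (C0 * Real.log P ^ (3 * (k + 1)) * (P : ℝ) ^ (k + 1)))) u +
      ((Set.Ioi 1).indicator (fun u => ENNReal.ofReal
        (((C0 * Real.log P ^ (3 * (k + 1)) * (P : ℝ) ^ (k + 1)) * (h ^ 2)⁻¹) *
          u ^ (-2 : ℝ))) u +
      ((Set.Ioc ((P : ℝ) ^ k)⁻¹ H⁻¹).indicator (fun u => ENNReal.ofReal
        ((C0 * Real.log P ^ (3 * (k + 1)) * (16 * Real.pi ^ 2 * H ^ (1 + 2 / (k : ℝ)))) * u⁻¹)) u +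
      (Set.Ioi H⁻¹).indicator (fun u => ENNReal.ofReal
        ((4 * (C0 * Real.log P ^ (3 * (k + 1)))) *
          u ^ (-(2 * ((k + 1 : ℕ) : ℝ) / (k : ℝ))))) u))) := by
  have hk0 : (0 : ℝ) < k := by exact_mod_cast (by omega : 0 < k)
  have hk2 : (2 : ℝ) ≤ k := by exact_mod_cast hk
  have hP2 : (2 : ℝ) ≤ P := by exact_mod_cast hP
  have hP0 : (0 : ℝ) < P := by linarith
  have hH0 : 0 < H := by linarith
  have hL0 : 0 < Real.log P := Real.log_pos (by linarith)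
  have hpi : 0 < Real.pi := Real.pi_pos
  obtain ⟨p, hp⟩ : ∃ p, p = ((P : ℝ) ^ k)⁻¹ := ⟨_, rfl⟩
  have hp0 : 0 < p := hp ▸ by positivity
  rw [← hp]
  obtain ⟨L', hL'⟩ : ∃ L', L' = Real.log P ^ (3 * (k + 1)) := ⟨_, rfl⟩
  have hL'0 : 0 < L' := hL' ▸ by positivity
  rw [← hL'] at hG1 ⊢
  obtain ⟨Y, hY⟩ : ∃ Y, Y = (P : ℝ) ^ (k + 1) := ⟨_, rfl⟩
  have hY0 : 0 < Y := hY ▸ by positivity
  rw [← hY] at hG1 ⊢
  rcases le_or_gt u p with hup | hup
  · rw [Set.indicator_of_mem (show u ∈ Set.Ioc 0 p from ⟨hu, hup⟩)]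
    refine le_trans ?_ le_self_add
    calc ENNReal.ofReal (W ^ 2) * G
        ≤ ENNReal.ofReal (W ^ 2) * ENNReal.ofReal (C0 * (P : ℝ) ^ (2 * (k + 1))) := by gcongr
      _ = ENNReal.ofReal (W ^ 2 * (C0 * (P : ℝ) ^ (2 * (k + 1)))) :=
          (ENNReal.ofReal_mul (by positivity)).symm
      _ ≤ _ := by
          apply ENNReal.ofReal_le_ofReal
          apply mul_le_mul_of_nonneg_right _ (by positivity)
          calc W ^ 2 ≤ (4 * Real.pi * H * p) ^ 2 := by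
                apply pow_le_pow_left₀ hW0
                exact hWH.trans (mul_le_mul_of_nonneg_left hup (by positivity))
            _ = _ := by ring
  · refine le_trans ?_ (le_add_self)
    have hs : ENNReal.ofReal (W ^ 2) * G ≤ ENNReal.ofReal (W ^ 2 * (C0 * L' * Y)) +
        ENNReal.ofReal (W ^ 2 * (C0 * L' * u ^ (-(2 * ((k + 1 : ℕ) : ℝ) / (k : ℝ))))) := by
      calc ENNReal.ofReal (W ^ 2) * G
          ≤ ENNReal.ofReal (W ^ 2) * ENNReal.ofReal (C0 * L' * (Y +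
            u ^ (-(2 * ((k + 1 : ℕ) : ℝ) / (k : ℝ))))) := by gcongr
        _ = ENNReal.ofReal (W ^ 2 * (C0 * L' * (Y +
            u ^ (-(2 * ((k + 1 : ℕ) : ℝ) / (k : ℝ)))))) :=
            (ENNReal.ofReal_mul (by positivity)).symm
        _ = _ := by
            rw [← ENNReal.ofReal_add (by positivity) (by positivity)]
            congr 1
            ring
    refine hs.trans ?_
    rw [← add_assoc]
    apply add_le_add
    · rcases le_or_gt u 1 with hu1 | hu1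
      · rw [Set.indicator_of_mem (show u ∈ Set.Ioc 0 1 from ⟨hu, hu1⟩)]
        refine le_trans ?_ le_self_add
        apply ENNReal.ofReal_le_ofReal
        apply mul_le_mul_of_nonneg_right _ (by positivity)
        nlinarith
      · rw [Set.indicator_of_mem (show u ∈ Set.Ioi 1 from hu1)]
        refine le_trans ?_ le_add_self
        apply ENNReal.ofReal_le_ofReal
        have h1 : W ^ 2 ≤ (h ^ 2)⁻¹ * u ^ (-2 : ℝ) := by
          calc W ^ 2 ≤ (1 / (h * u)) ^ 2 := pow_le_pow_left₀ hW0 hWh 2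
            _ = (h ^ 2)⁻¹ * u ^ (-2 : ℝ) := by
                rw [Real.rpow_neg hu.le, Real.rpow_two]
                field_simp
        calc W ^ 2 * (C0 * L' * Y) ≤ ((h ^ 2)⁻¹ * u ^ (-2 : ℝ)) * (C0 * L' * Y) :=
              mul_le_mul_of_nonneg_right h1 (by positivity)
          _ = _ := by ring
    · rcases le_or_gt u H⁻¹ with huH | huH
      · rw [Set.indicator_of_mem (show u ∈ Set.Ioc p H⁻¹ from ⟨hup, huH⟩)]
        refine le_trans ?_ le_self_add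
        apply ENNReal.ofReal_le_ofReal
        have h1 : W ^ 2 ≤ 16 * Real.pi ^ 2 * H ^ 2 * u ^ 2 := by
          calc W ^ 2 ≤ (4 * Real.pi * H * u) ^ 2 := pow_le_pow_left₀ hW0 hWH 2
            _ = _ := by ring
        have h2 : u ^ 2 * u ^ (-(2 * ((k + 1 : ℕ) : ℝ) / (k : ℝ))) =
            u ^ (1 - 2 / (k : ℝ)) * u⁻¹ := by
          rw [← Real.rpow_natCast u 2, ← Real.rpow_add hu, ← Real.rpow_neg_one u,
            ← Real.rpow_add hu]
          congr 1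
          push_cast
          field_simp
          ring
        have h3 : u ^ (1 - 2 / (k : ℝ)) ≤ H⁻¹ ^ (1 - 2 / (k : ℝ)) := by
          apply Real.rpow_le_rpow hu.le huH
          have : 2 / (k : ℝ) ≤ 1 := by rw [div_le_one hk0]; exact hk2
          linarith
        have h4 : H ^ 2 * H⁻¹ ^ (1 - 2 / (k : ℝ)) = H ^ (1 + 2 / (k : ℝ)) := by
          rw [Real.inv_rpow hH0.le, ← Real.rpow_neg hH0.le, ← Real.rpow_natCast H 2,
            ← Real.rpow_add hH0]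
          congr 1
          push_cast
          ring
        calc W ^ 2 * (C0 * L' * u ^ (-(2 * ((k + 1 : ℕ) : ℝ) / (k : ℝ))))
            ≤ (16 * Real.pi ^ 2 * H ^ 2 * u ^ 2) *
              (C0 * L' * u ^ (-(2 * ((k + 1 : ℕ) : ℝ) / (k : ℝ)))) :=
              mul_le_mul_of_nonneg_right h1 (by positivity)
          _ = C0 * L' * 16 * Real.pi ^ 2 * H ^ 2 *
              (u ^ 2 * u ^ (-(2 * ((k + 1 : ℕ) : ℝ) / (k : ℝ)))) := by ring
          _ = C0 * L' * 16 * Real.pi ^ 2 * H ^ 2 * u⁻¹ * u ^ (1 - 2 / (k : ℝ)) := by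
              rw [h2]; ring
          _ ≤ C0 * L' * 16 * Real.pi ^ 2 * H ^ 2 * u⁻¹ * H⁻¹ ^ (1 - 2 / (k : ℝ)) :=
              mul_le_mul_of_nonneg_left h3 (by positivity)
          _ = C0 * L' * 16 * Real.pi ^ 2 * (H ^ 2 * H⁻¹ ^ (1 - 2 / (k : ℝ))) * u⁻¹ := by ring
          _ = _ := by rw [h4]; ring
      · rw [Set.indicator_of_mem (show u ∈ Set.Ioi H⁻¹ from huH)]
        refine le_trans ?_ le_add_self
        apply ENNReal.ofReal_le_ofReal
        have h1 : W ^ 2 ≤ 4 := by nlinarith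
        calc W ^ 2 * (C0 * L' * u ^ (-(2 * ((k + 1 : ℕ) : ℝ) / (k : ℝ))))
            ≤ 4 * (C0 * L' * u ^ (-(2 * ((k + 1 : ℕ) : ℝ) / (k : ℝ)))) :=
              mul_le_mul_of_nonneg_right h1 (by positivity)
          _ = _ := by ring

open FourierTransform in
theorem variance (hPl : ∀ (g : ℝ → ℂ), Integrable g → MemLp g 2 →
      ∫⁻ ξ : ℝ, ‖𝓕 g ξ‖ₑ ^ 2 = ∫⁻ z : ℝ, ‖g z‖ₑ ^ 2)
    (k : ℕ) (hk : 2 ≤ k) (a b h : ℝ) (ha : 0 < a) (hab : a < b) (hh : 0 < h) :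
    ∃ C : ℝ, 0 < C ∧ ∀ P : ℕ, 2 ≤ P → ∀ H : ℝ, 1 ≤ H → h ≤ H → H ≤ (P : ℝ) ^ k →
      ∫⁻ l in cube (k + 1) a b, ∫⁻ t : ℝ, ‖∑ x ∈ box (k + 1) P, win h H (F k l x - t)‖ₑ ^ 2 ≤
        ENNReal.ofReal (C * (Real.log P) ^ (3 * k + 4) * ((P : ℝ) ^ (k + 1) + H ^ (1 + 2 / (k : ℝ)))) := by
  obtain ⟨C0, hC0, hprod⟩ := prodms k hk a b ha hab (k + 1)
  refine ⟨2 * C0 * (16 * Real.pi ^ 2 / Real.log 2 ^ (3 * k + 4) + (4 + (h ^ 2)⁻¹) / Real.log 2 +
      16 * Real.pi ^ 2 * k + 4 / Real.log 2), ?_, fun P hP H hH1 hhH hHP => ?_⟩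
  · have hl2 : 0 < Real.log 2 := Real.log_pos one_lt_two
    have hpi : 0 < Real.pi := Real.pi_pos
    positivity
  obtain ⟨hg, hg2, hgm, hW2, hWH, hWh⟩ := win_props h H hh hhH
  obtain ⟨hp1, hp2⟩ := hprod P hP
  have hk0 : (0 : ℝ) < k := by exact_mod_cast (by omega : 0 < k)
  have hP2 : (2 : ℝ) ≤ P := by exact_mod_cast hP
  have hP0 : (0 : ℝ) < P := by linarith
  have hH0 : 0 < H := by linarith
  have hL0 : 0 < Real.log P := Real.log_pos (by linarith)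
  have hpi : 0 < Real.pi := Real.pi_pos
  -- Plancherel
  have h1 : ∀ l : Fin (k + 1) → ℝ,
      ∫⁻ t : ℝ, ‖∑ x ∈ box (k + 1) P, win h H (F k l x - t)‖ₑ ^ 2 =
      ∫⁻ ξ : ℝ, ‖𝓕 (win h H) ξ‖ₑ ^ 2 * ‖∑ x ∈ box (k + 1) P, e (ξ * F k l x)‖ₑ ^ 2 := by
    intro l
    have := planch hPl (box (k + 1) P) (fun _ => 1) (F k l) (win h H) hg hg2
    simpa using this
  have hcont : Continuous (fun q : (Fin (k + 1) → ℝ) × ℝ =>
      ∑ x ∈ box (k + 1) P, e (q.2 * F k q.1 x)) := by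
    unfold e F
    fun_prop
  have hmeas : Measurable (Function.uncurry fun (l : Fin (k + 1) → ℝ) (ξ : ℝ) =>
      ‖𝓕 (win h H) ξ‖ₑ ^ 2 * ‖∑ x ∈ box (k + 1) P, e (ξ * F k l x)‖ₑ ^ 2) := by
    exact (((hgm.comp measurable_snd).enorm).pow_const 2).mul
      ((hcont.measurable.enorm).pow_const 2)
  have h2 : ∫⁻ l in cube (k + 1) a b, ∫⁻ t : ℝ,
      ‖∑ x ∈ box (k + 1) P, win h H (F k l x - t)‖ₑ ^ 2 =
      ∫⁻ ξ : ℝ, ‖𝓕 (win h H) ξ‖ₑ ^ 2 *
        ∫⁻ l in cube (k + 1) a b, ‖∑ x ∈ box (k + 1) P, e (ξ * F k l x)‖ₑ ^ 2 := by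
    simp only [h1]
    rw [lintegral_lintegral_swap hmeas.aemeasurable]
    refine lintegral_congr fun ξ => ?_
    rw [lintegral_const_mul']
    exact ENNReal.pow_ne_top enorm_ne_top
  rw [h2]
  refine (tw5_sym _ (fun u => (Set.Ioc 0 ((P : ℝ) ^ k)⁻¹).indicator (fun _ => ENNReal.ofReal
        (16 * Real.pi ^ 2 * H ^ 2 * (((P : ℝ) ^ k)⁻¹) ^ 2 * (C0 * (P : ℝ) ^ (2 * (k + 1))))) u +
      ((Set.Ioc 0 1).indicator (fun _ => ENNReal.ofReal
        (4 * (C0 * Real.log P ^ (3 * (k + 1)) * (P : ℝ) ^ (k + 1)))) u +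
      ((Set.Ioi 1).indicator (fun u => ENNReal.ofReal
        (((C0 * Real.log P ^ (3 * (k + 1)) * (P : ℝ) ^ (k + 1)) * (h ^ 2)⁻¹) *
          u ^ (-2 : ℝ))) u +
      ((Set.Ioc ((P : ℝ) ^ k)⁻¹ H⁻¹).indicator (fun u => ENNReal.ofReal
        ((C0 * Real.log P ^ (3 * (k + 1)) * (16 * Real.pi ^ 2 * H ^ (1 + 2 / (k : ℝ)))) * u⁻¹)) u +
      (Set.Ioi H⁻¹).indicator (fun u => ENNReal.ofReal
        ((4 * (C0 * Real.log P ^ (3 * (k + 1)))) *
          u ^ (-(2 * ((k + 1 : ℕ) : ℝ) / (k : ℝ))))) u)))) ?_).trans ?_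
  · intro ξ hξ
    have hu : 0 < |ξ| := abs_pos.2 hξ
    have e1 : ‖𝓕 (win h H) ξ‖ₑ ^ 2 = ENNReal.ofReal (‖𝓕 (win h H) ξ‖ ^ 2) := by
      rw [← ofReal_norm, ENNReal.ofReal_pow (norm_nonneg _)]
    rw [e1]
    refine tw5_pt k hk h C0 hh hC0 P hP H hH1 _ |ξ| _ (norm_nonneg _) hu (hW2 ξ) (hWH ξ)
      (hWh ξ hξ) ?_ (hp2 ξ)
    exact hp1 ξ hξ
  · have hpk0 : (0 : ℝ) < ((P : ℝ) ^ k)⁻¹ := by positivity
    have hpH : ((P : ℝ) ^ k)⁻¹ ≤ H⁻¹ := inv_anti₀ hH0 hHP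
    have hmul : ∀ A p : ℝ, 0 ≤ A → ENNReal.ofReal A * ENNReal.ofReal p = ENNReal.ofReal (A * p) :=
      fun A p hA => (ENNReal.ofReal_mul hA).symm
    have hs1 : (1 : ℝ) < 2 * ((k + 1 : ℕ) : ℝ) / (k : ℝ) := by
      rw [lt_div_iff₀ hk0]
      push_cast
      linarith
    refine (mul_le_mul' le_rfl (setLIntegral_le_lintegral (Set.Ioi (0 : ℝ)) _)).trans ?_
    calc _ = 2 * (ENNReal.ofReal ((16 * Real.pi ^ 2 * H ^ 2 * (((P : ℝ) ^ k)⁻¹) ^ 2 *
            (C0 * (P : ℝ) ^ (2 * (k + 1)))) * ((P : ℝ) ^ k)⁻¹) +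
          (ENNReal.ofReal (4 * (C0 * Real.log P ^ (3 * (k + 1)) * (P : ℝ) ^ (k + 1)) * 1) +
          (ENNReal.ofReal (((C0 * Real.log P ^ (3 * (k + 1)) * (P : ℝ) ^ (k + 1)) * (h ^ 2)⁻¹) *
            (-1 ^ ((-2 : ℝ) + 1) / ((-2 : ℝ) + 1))) +
          (ENNReal.ofReal ((C0 * Real.log P ^ (3 * (k + 1)) *
            (16 * Real.pi ^ 2 * H ^ (1 + 2 / (k : ℝ)))) * Real.log (H⁻¹ / ((P : ℝ) ^ k)⁻¹)) +
          ENNReal.ofReal ((4 * (C0 * Real.log P ^ (3 * (k + 1)))) *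
            (-H⁻¹ ^ (-(2 * ((k + 1 : ℕ) : ℝ) / (k : ℝ)) + 1) /
              (-(2 * ((k + 1 : ℕ) : ℝ) / (k : ℝ)) + 1))))))) := by
          congr 1
          rw [lintegral_add_left (tw5_meas _ (by fun_prop) _ measurableSet_Ioc),
            lintegral_add_left (tw5_meas _ (by fun_prop) _ measurableSet_Ioc),
            lintegral_add_left (tw5_meas _ (by fun_prop) _ measurableSet_Ioi),
            lintegral_add_left (tw5_meas _ (by fun_prop) _ measurableSet_Ioc),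
            tw5_a, tw5_a, tw5_c _ 1 (-2) (by positivity) one_pos (by norm_num),
            tw5_b _ _ _ (by positivity) hpk0 hpH,
            tw5_c _ _ _ (by positivity) (by positivity) (by linarith),
            hmul _ _ (by positivity), hmul _ _ (by positivity)]
      _ ≤ _ := ?_
    have hlog0 : 0 ≤ Real.log (H⁻¹ / ((P : ℝ) ^ k)⁻¹) := by
      apply Real.log_nonneg
      rw [le_div_iff₀ hpk0, one_mul]
      exact hpH
    have e3 : (-1 ^ ((-2 : ℝ) + 1) / ((-2 : ℝ) + 1)) = 1 := by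
      rw [Real.one_rpow]; norm_num
    have e5 : (-H⁻¹ ^ (-(2 * ((k + 1 : ℕ) : ℝ) / (k : ℝ)) + 1) /
              (-(2 * ((k + 1 : ℕ) : ℝ) / (k : ℝ)) + 1)) ≤ H ^ (1 + 2 / (k : ℝ)) := by
      have h5 : -(2 * ((k + 1 : ℕ) : ℝ) / (k : ℝ)) + 1 = -(1 + 2 / (k : ℝ)) := by
        push_cast
        field_simp
        ring
      rw [h5, Real.inv_rpow hH0.le, Real.rpow_neg hH0.le, inv_inv, neg_div_neg_eq]
      apply div_le_self (by positivity)
      have : 0 < 2 / (k : ℝ) := by positivity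
      linarith
    have e50 : 0 ≤ (-H⁻¹ ^ (-(2 * ((k + 1 : ℕ) : ℝ) / (k : ℝ)) + 1) /
              (-(2 * ((k + 1 : ℕ) : ℝ) / (k : ℝ)) + 1)) := by
      apply div_nonneg_of_nonpos
      · rw [neg_nonpos]; positivity
      · linarith
    rw [e3, mul_one, mul_one, ← ENNReal.ofReal_add (by positivity) (by positivity),
      ← ENNReal.ofReal_add (by positivity) (by positivity),
      ← ENNReal.ofReal_add (by positivity) (by positivity),
      ← ENNReal.ofReal_add (by positivity) (by positivity),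
      show (2 : ℝ≥0∞) = ENNReal.ofReal 2 by norm_num, ← ENNReal.ofReal_mul (by norm_num)]
    apply ENNReal.ofReal_le_ofReal
    refine le_trans ?_ (tw5_real k hk h C0 hh hC0 P hP H hH1 hHP)
    have e6 := mul_le_mul_of_nonneg_left e5
      (by positivity : (0 : ℝ) ≤ 4 * (C0 * Real.log P ^ (3 * (k + 1))))
    linarith

end TW5

end Pool.Agent.helper616_TW
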