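import Pool.Agent.helper616_TW.Defs

/-!
# Project TW (helper616): two translates of a set
-/

set_option autoImplicit false
set_option maxHeartbeats 4000000

open Finset MeasureTheory Filter Topology
open Pool.Agent.helper616_TS (e)

namespace Pool.Agent.helper616_TW

namespace TW8


/-- the measure of the set of the parameters for which a point falls into a set -/
theorem dbl_vol (E : Set ℝ) (c u : ℝ) (hc : c ≠ 0) :
    volume {m : ℝ | u + m * c ∈ E} = ENNReal.ofReal |c⁻¹| * volume E := by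
  have h1 : {m : ℝ | u + m * c ∈ E} = (fun m => m * c) ⁻¹' ((fun y => u + y) ⁻¹' E) := rfl
  rw [h1, Real.volume_preimage_mul_right hc, measure_preimage_add]

theorem doubling (E : Set ℝ) (hE : MeasurableSet E) (a b X Y : ℝ) (hXY : X ≠ Y) :
    ∫⁻ μ in Set.Icc a b, volume {t : ℝ | t - μ * X ∈ E ∧ t - μ * Y ∈ E} ≤ volume E ^ 2 / ENNReal.ofReal |X - Y| := by
  have hc : X - Y ≠ 0 := sub_ne_zero.2 hXY
  have h1 : ∀ μ : ℝ, volume {t : ℝ | t - μ * X ∈ E ∧ t - μ * Y ∈ E} =
      ∫⁻ u, E.indicator (1 : ℝ → ENNReal) u * E.indicator (1 : ℝ → ENNReal) (u + μ * (X - Y)) := by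
    intro μ
    rw [← measure_preimage_add_right volume (μ * X)]
    have h2 : (fun t => t + μ * X) ⁻¹' {t : ℝ | t - μ * X ∈ E ∧ t - μ * Y ∈ E} =
        {u : ℝ | u ∈ E ∧ u + μ * (X - Y) ∈ E} := by
      ext u
      simp only [Set.mem_preimage, Set.mem_ofPred_eq]
      rw [add_sub_cancel_right, show u + μ * X - μ * Y = u + μ * (X - Y) by ring]
    have h3 : MeasurableSet {u : ℝ | u ∈ E ∧ u + μ * (X - Y) ∈ E} :=
      hE.inter ((measurable_id.add_const _) hE)
    rw [h2, ← lintegral_indicator_one h3]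
    refine lintegral_congr fun u => ?_
    by_cases ha : u ∈ E <;> by_cases hb : u + μ * (X - Y) ∈ E <;>
      simp [Set.indicator, ha, hb]
  have hm : Measurable (Function.uncurry fun (μ u : ℝ) =>
      E.indicator (1 : ℝ → ENNReal) u * E.indicator (1 : ℝ → ENNReal) (u + μ * (X - Y))) := by
    have hi : Measurable (E.indicator (1 : ℝ → ENNReal)) := measurable_one.indicator hE
    exact (hi.comp measurable_snd).mul
      (hi.comp (measurable_snd.add (measurable_fst.mul_const _)))
  have h4 : ∀ u : ℝ, ∫⁻ μ, E.indicator (1 : ℝ → ENNReal) u *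
      E.indicator (1 : ℝ → ENNReal) (u + μ * (X - Y)) =
      E.indicator (1 : ℝ → ENNReal) u * (ENNReal.ofReal |(X - Y)⁻¹| * volume E) := by
    intro u
    have hi : Measurable (E.indicator (1 : ℝ → ENNReal)) := measurable_one.indicator hE
    have h6 : Measurable fun μ : ℝ => E.indicator (1 : ℝ → ENNReal) (u + μ * (X - Y)) :=
      hi.comp (measurable_const.add (measurable_id.mul_const _))
    rw [lintegral_const_mul _ h6]
    congr 1
    rw [← dbl_vol E (X - Y) u hc]
    have h5 : MeasurableSet {m : ℝ | u + m * (X - Y) ∈ E} :=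
      (measurable_const.add (measurable_id.mul_const _)) hE
    rw [← lintegral_indicator_one h5]
    refine lintegral_congr fun m => ?_
    simp [Set.indicator]
  calc ∫⁻ μ in Set.Icc a b, volume {t : ℝ | t - μ * X ∈ E ∧ t - μ * Y ∈ E}
      ≤ ∫⁻ μ, volume {t : ℝ | t - μ * X ∈ E ∧ t - μ * Y ∈ E} := setLIntegral_le_lintegral _ _
    _ = ∫⁻ μ, ∫⁻ u, E.indicator (1 : ℝ → ENNReal) u *
          E.indicator (1 : ℝ → ENNReal) (u + μ * (X - Y)) := lintegral_congr h1
    _ = ∫⁻ u, ∫⁻ μ, E.indicator (1 : ℝ → ENNReal) u *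
          E.indicator (1 : ℝ → ENNReal) (u + μ * (X - Y)) := lintegral_lintegral_swap hm.aemeasurable
    _ = ∫⁻ u, E.indicator (1 : ℝ → ENNReal) u * (ENNReal.ofReal |(X - Y)⁻¹| * volume E) :=
        lintegral_congr h4
    _ = volume E * (ENNReal.ofReal |(X - Y)⁻¹| * volume E) := by
        rw [lintegral_mul_const _ (measurable_one.indicator hE), lintegral_indicator_one hE]
    _ = volume E ^ 2 / ENNReal.ofReal |X - Y| := by
        rw [abs_inv, ENNReal.ofReal_inv_of_pos (abs_pos.2 hc), ENNReal.div_eq_inv_mul]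
        ring
    _ ≤ _ := le_rfl

end TW8

end Pool.Agent.helper616_TW
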