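import Pool.Agent.helper616_TW.Defs

/-!
# Project TW (helper616): from cubes to the orthant
-/

set_option autoImplicit false
set_option maxHeartbeats 4000000

open Finset MeasureTheory Filter Topology
open Pool.Agent.helper616_TS (e)

namespace Pool.Agent.helper616_TW

namespace TW12


theorem allpos (s : ℕ) (P : (Fin s → ℝ) → Prop) (h : ∀ a b : ℝ, 0 < a → a < b → ∀ᵐ l : Fin s → ℝ, l ∈ cube s a b → P l) :
    ∀ᵐ l : Fin s → ℝ, (∀ i, 0 < l i) → P l := by
  have h1 : ∀ᵐ l : Fin s → ℝ, ∀ n : ℕ, l ∈ cube s (1 / ((n : ℝ) + 2)) ((n : ℝ) + 2) → P l := by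
    rw [ae_all_iff]
    intro n
    have hn : (0 : ℝ) ≤ n := by positivity
    apply h
    · positivity
    · rw [div_lt_iff₀ (by positivity)]
      nlinarith
  filter_upwards [h1] with l hl hpos
  obtain ⟨n, hn⟩ := exists_nat_ge (∑ i, (l i + 1 / l i))
  apply hl n
  intro i
  have hi : l i + 1 / l i ≤ ∑ i, (l i + 1 / l i) :=
    Finset.single_le_sum (f := fun i => l i + 1 / l i)
      (fun i _ => by have := hpos i; positivity) (mem_univ i)
  have h2 : 0 < l i := hpos i
  have h3 : 0 < 1 / l i := by positivity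
  constructor
  · rw [div_le_iff₀ (by positivity)]
    have h4 : 1 / l i ≤ n := by linarith
    rw [div_le_iff₀ h2] at h4
    nlinarith
  · linarith

end TW12

end Pool.Agent.helper616_TW
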