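import Pool.Agent.helper616_TS.Defs

/-!
# Project TW (helper616): the problem of Waring with almost all real coefficients, definitions
-/

set_option autoImplicit false

open Finset MeasureTheory Filter Topology
open Pool.Agent.helper616_TS (e)

namespace Pool.Agent.helper616_TW

/-- the diagonal form of degree `k` with the coefficients `l` -/
noncomputable def F {s : ℕ} (k : ℕ) (l : Fin s → ℝ) (x : Fin s → ℕ) : ℝ := ∑ i, l i * (x i : ℝ) ^ k

/-- the integer points of `[1, P] ^ s` -/
def box (s P : ℕ) : Finset (Fin s → ℕ) := Fintype.piFinset fun _ => Icc 1 P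

/-- the number of the points of the box with `t < F(x) ≤ t + h` -/
noncomputable def R {s : ℕ} (k P : ℕ) (l : Fin s → ℝ) (t h : ℝ) : ℕ :=
  ((box s P).filter fun x => t < F k l x ∧ F k l x ≤ t + h).card

/-- the vectors with all coordinates in `[a, b]` -/
def cube (s : ℕ) (a b : ℝ) : Set (Fin s → ℝ) := {l | ∀ i, l i ∈ Set.Icc a b}

/-- the exceptional set -/
def bad {s : ℕ} (k P : ℕ) (a τ h : ℝ) (l : Fin s → ℝ) : Set ℝ :=
  {t | τ * (P : ℝ) ^ k ≤ t ∧ t ≤ a * (P : ℝ) ^ k / 2 ∧ ∀ x ∈ box s P, ¬ (t < F k l x ∧ F k l x ≤ t + h)}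

/-- difference of two windows -/
noncomputable def win (h H y : ℝ) : ℂ :=
  (((Set.Ioc 0 h).indicator (fun _ => 1 / h) y - (Set.Ioc 0 H).indicator (fun _ => 1 / H) y : ℝ) : ℂ)

end Pool.Agent.helper616_TW
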