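import Pool.Agent.helper616_TW.Defs

/-!
# Project TW (helper616): measurability
-/

set_option autoImplicit false
set_option maxHeartbeats 4000000

open Finset MeasureTheory Filter Topology
open Pool.Agent.helper616_TS (e)

namespace Pool.Agent.helper616_TW

namespace TW9


theorem tw9_contF {s : ℕ} (k : ℕ) (x : Fin s → ℕ) :
    Continuous (fun p : (Fin s → ℝ) × ℝ => F k p.1 x) := by
  unfold F
  fun_prop

theorem meas_bad {s : ℕ} (k P : ℕ) (a τ h : ℝ) :
    MeasurableSet {p : (Fin s → ℝ) × ℝ | p.2 ∈ bad k P a τ h p.1} ∧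
      Measurable (fun l : Fin s → ℝ => volume (bad k P a τ h l)) := by
  have h1 : MeasurableSet {p : (Fin s → ℝ) × ℝ | p.2 ∈ bad k P a τ h p.1} := by
    have e1 : {p : (Fin s → ℝ) × ℝ | p.2 ∈ bad k P a τ h p.1} =
        {p : (Fin s → ℝ) × ℝ | τ * (P : ℝ) ^ k ≤ p.2} ∩
        ({p : (Fin s → ℝ) × ℝ | p.2 ≤ a * (P : ℝ) ^ k / 2} ∩
          ⋂ x ∈ box s P, ({p : (Fin s → ℝ) × ℝ | p.2 < F k p.1 x} ∩
            {p : (Fin s → ℝ) × ℝ | F k p.1 x ≤ p.2 + h})ᶜ) := by
      ext p
      simp only [bad, Set.mem_setOf_eq, Set.mem_inter_iff, Set.mem_iInter, Set.mem_compl_iff]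
    rw [e1]
    refine (measurableSet_le measurable_const measurable_snd).inter
      ((measurableSet_le measurable_snd measurable_const).inter ?_)
    refine Finset.measurableSet_biInter _ fun x _ => ?_
    refine ((measurableSet_lt measurable_snd (tw9_contF k x).measurable).inter
      (measurableSet_le (tw9_contF k x).measurable (measurable_snd.add_const h))).compl
  refine ⟨h1, ?_⟩
  exact measurable_measure_prodMk_left h1

end TW9

end Pool.Agent.helper616_TW
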