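import Pool.Agent.helper616_TW.Defs

/-!
# Project TW (helper616): almost all coefficients in a cube
-/

set_option autoImplicit false
set_option maxHeartbeats 4000000

open Finset MeasureTheory Filter Topology
open Pool.Agent.helper616_TS (e)

namespace Pool.Agent.helper616_TW

namespace TW11


theorem cubes_lim (k m K : ℕ) (hm : k < 2 ^ m) :
    Tendsto (fun P : ℕ => (P : ℝ) ^ k * ((Real.log P) ^ K / P) ^ (2 ^ m)) atTop (𝓝 0) := by
  set M := 2 ^ m with hM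
  have h1 : Tendsto (fun x : ℝ => Real.log x ^ (K * M) / x) atTop (𝓝 0) :=
    (Real.isLittleO_pow_log_id_atTop (n := K * M)).tendsto_div_nhds_zero
  have h2 : Tendsto (fun P : ℕ => Real.log P ^ (K * M) / (P : ℝ)) atTop (𝓝 0) :=
    h1.comp tendsto_natCast_atTop_atTop
  refine squeeze_zero' ?_ ?_ h2
  · filter_upwards [eventually_ge_atTop 1] with P hP
    have hl : 0 ≤ Real.log P := Real.log_natCast_nonneg P
    positivity
  · filter_upwards [eventually_ge_atTop 1] with P hP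
    have hP1 : (1 : ℝ) ≤ P := by exact_mod_cast hP
    have hP0 : (0 : ℝ) < P := by linarith
    have hl : 0 ≤ Real.log P := Real.log_natCast_nonneg P
    rw [div_pow, ← pow_mul]
    have e1 : (P : ℝ) ^ k * (Real.log P ^ (K * M) / (P : ℝ) ^ M) =
        Real.log P ^ (K * M) * ((P : ℝ) ^ k / (P : ℝ) ^ M) := by ring
    rw [e1, div_eq_mul_inv (Real.log P ^ (K * M))]
    refine mul_le_mul_of_nonneg_left ?_ (by positivity)
    obtain ⟨d, hd⟩ : ∃ d, M = k + 1 + d := ⟨M - k - 1, by omega⟩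
    rw [hd, div_le_iff₀ (by positivity)]
    have e2 : (P : ℝ)⁻¹ * (P : ℝ) ^ (k + 1 + d) = (P : ℝ) ^ k * (P : ℝ) ^ d := by
      field_simp
      ring
    rw [e2]
    have : (1 : ℝ) ≤ (P : ℝ) ^ d := one_le_pow₀ hP1
    nlinarith [pow_pos hP0 k]

/-- one `h` and one `P` -/
theorem cubes_one {s : ℕ} (k P : ℕ) (a τ h θ : ℝ) (hh : 0 < h) (l : Fin s → ℝ)
    (hθ : θ < h / 2) (hb : volume (bad k P a τ (h / 2) l) ≤ ENNReal.ofReal θ) (t : ℝ)
    (h1 : τ * (P : ℝ) ^ k ≤ t) (h2 : t ≤ a * (P : ℝ) ^ k / 2 - h / 2) :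
    ∃ x : Fin s → ℕ, (∀ i, 1 ≤ x i) ∧ t < F k l x ∧ F k l x ≤ t + h := by
  by_contra hcon
  have hno : ∀ x ∈ box s P, ¬ (t < F k l x ∧ F k l x ≤ t + h) := by
    intro x hx hF
    refine hcon ⟨x, fun i => ?_, hF.1, hF.2⟩
    have := Fintype.mem_piFinset.1 hx i
    exact (Finset.mem_Icc.1 this).1
  have hsub : Set.Icc t (t + h / 2) ⊆ bad k P a τ (h / 2) l := by
    intro t' ht'
    refine ⟨h1.trans ht'.1, ?_, ?_⟩
    · linarith [ht'.2]
    · intro x hx hF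
      exact hno x hx ⟨lt_of_le_of_lt ht'.1 hF.1, by linarith [hF.2, ht'.2]⟩
  have hv := (measure_mono hsub).trans hb
  rw [Real.volume_Icc] at hv
  have e1 : t + h / 2 - t = h / 2 := by ring
  rw [e1] at hv
  have := (ENNReal.ofReal_lt_ofReal_iff (by linarith)).2 hθ
  exact absurd hv (not_le.2 this)

/-- one `h` -/
theorem cubes_h (k : ℕ) (hk : 2 ≤ k) (a b : ℝ) (ha : 0 < a) (m : ℕ) (hm : k < 2 ^ m)
    (hi : ∀ τ h : ℝ, 0 < τ → τ < a / 2 → 0 < h → ∃ (K : ℕ) (C : ℝ), ∀ᶠ P : ℕ in atTop,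
      volume {l : Fin (k + 1 + m) → ℝ | l ∈ cube (k + 1 + m) a b ∧
        ENNReal.ofReal ((P : ℝ) ^ k * ((Real.log P) ^ K / P) ^ (2 ^ m)) < volume (bad k P a τ h l)} ≤
        ENNReal.ofReal (C / (Real.log P) ^ 2)) (h : ℝ) (hh : 0 < h) :
    ∀ᵐ l : Fin (k + 1 + m) → ℝ, l ∈ cube (k + 1 + m) a b → ∀ᶠ t : ℝ in atTop,
      ∃ x : Fin (k + 1 + m) → ℕ, (∀ i, 1 ≤ x i) ∧ t < F k l x ∧ F k l x ≤ t + h := by
  have hk2 : (0 : ℝ) < 2 ^ (k + 2) := by positivity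
  have hτ : 0 < a / 2 ^ (k + 2) := by positivity
  have hτ2 : a / 2 ^ (k + 2) < a / 2 := by
    refine div_lt_div_of_pos_left ha (by norm_num) ?_
    calc (2 : ℝ) < 2 ^ 2 := by norm_num
      _ ≤ 2 ^ (k + 2) := pow_le_pow_right₀ (by norm_num) (by omega)
  obtain ⟨K, C, hKC⟩ := hi (a / 2 ^ (k + 2)) (h / 2) hτ hτ2 (by linarith)
  set τ := a / 2 ^ (k + 2) with hτdef
  set θ : ℕ → ℝ := fun P => (P : ℝ) ^ k * ((Real.log P) ^ K / P) ^ (2 ^ m) with hθ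
  set B : ℕ → Set (Fin (k + 1 + m) → ℝ) := fun P => {l | l ∈ cube (k + 1 + m) a b ∧
        ENNReal.ofReal (θ P) < volume (bad k P a τ (h / 2) l)} with hB
  have hpow : Tendsto (fun j : ℕ => 2 ^ j) atTop atTop := tendsto_pow_atTop_atTop_of_one_lt (by norm_num)
  obtain ⟨J, hJ⟩ := eventually_atTop.1 (hpow.eventually hKC)
  have hsum : ∑' j : ℕ, volume (B (2 ^ (j + (J + 1)))) ≠ ⊤ := by
    have hs : Summable (fun j : ℕ => |C| / (Real.log 2) ^ 2 * (1 / ((j + (J + 1) : ℕ) : ℝ) ^ 2)) := by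
      refine Summable.mul_left _ ?_
      exact (summable_nat_add_iff (f := fun j : ℕ => 1 / (j : ℝ) ^ 2) (J + 1)).2
        (Real.summable_one_div_nat_pow.2 (by norm_num))
    refine ne_of_lt (lt_of_le_of_lt (ENNReal.tsum_le_tsum (fun j => ?_))
      (lt_of_le_of_ne le_top hs.tsum_ofReal_ne_top))
    refine (hJ (j + (J + 1)) (by omega)).trans (ENNReal.ofReal_le_ofReal ?_)
    have e1 : Real.log (((2 ^ (j + (J + 1)) : ℕ)) : ℝ) = ((j + (J + 1) : ℕ) : ℝ) * Real.log 2 := by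
      rw [Nat.cast_pow, Real.log_pow, Nat.cast_ofNat]
    rw [e1, mul_pow]
    have hl2 : 0 < Real.log 2 := Real.log_pos (by norm_num)
    have hj : (0 : ℝ) < ((j + (J + 1) : ℕ) : ℝ) := by positivity
    calc C / (((j + (J + 1) : ℕ) : ℝ) ^ 2 * Real.log 2 ^ 2)
        ≤ |C| / (((j + (J + 1) : ℕ) : ℝ) ^ 2 * Real.log 2 ^ 2) := by
          gcongr
          exact le_abs_self C
      _ = |C| / Real.log 2 ^ 2 * (1 / ((j + (J + 1) : ℕ) : ℝ) ^ 2) := by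
          field_simp
  have hae := ae_eventually_notMem hsum
  filter_upwards [hae] with l hl hcube
  -- the thresholds
  have hθ0 : ∀ᶠ j : ℕ in atTop, θ (2 ^ j) < h / 2 :=
    ((cubes_lim k m K hm).comp hpow).eventually_lt_const (by linarith)
  obtain ⟨J1, hJ1⟩ := eventually_atTop.1 hθ0
  obtain ⟨J2, hJ2⟩ := eventually_atTop.1 hl
  have hgrow : Tendsto (fun j : ℕ => ((2 : ℝ) ^ k) ^ j) atTop atTop :=
    tendsto_pow_atTop_atTop_of_one_lt (one_lt_pow₀ (by norm_num) (by omega))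
  obtain ⟨J3, hJ3⟩ := eventually_atTop.1 (hgrow.eventually_ge_atTop (2 * h / a))
  set j0 := max (J2 + (J + 1)) (max J1 J3) with hj0
  filter_upwards [eventually_ge_atTop (τ * ((2 : ℝ) ^ k) ^ j0)] with t ht
  have hy1 : (1 : ℝ) < (2 : ℝ) ^ k := one_lt_pow₀ (by norm_num) (by omega)
  have hx1 : ((2 : ℝ) ^ k) ^ j0 ≤ t / τ := by
    rw [le_div_iff₀ hτ]
    linarith [mul_comm τ (((2 : ℝ) ^ k) ^ j0)]
  obtain ⟨n, hn1, hn2⟩ := exists_nat_pow_near ((one_le_pow₀ hy1.le).trans hx1) hy1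
  have hnj : j0 ≤ n := by
    have := hx1.trans_lt hn2
    have := (pow_lt_pow_iff_right₀ hy1).1 this
    omega
  have hPk : (((2 ^ n : ℕ) : ℝ)) ^ k = ((2 : ℝ) ^ k) ^ n := by
    push_cast
    rw [← pow_mul, ← pow_mul, mul_comm]
  have hb : volume (bad k (2 ^ n) a τ (h / 2) l) ≤ ENNReal.ofReal (θ (2 ^ n)) := by
    have h1 := hJ2 (n - (J + 1)) (by omega)
    have h2 : n - (J + 1) + (J + 1) = n := by omega
    rw [h2] at h1
    by_contra hcon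
    exact h1 ⟨hcube, not_le.1 hcon⟩
  refine cubes_one k (2 ^ n) a τ h (θ (2 ^ n)) hh l (hJ1 n (by omega)) hb t ?_ ?_
  · rw [hPk]
    rw [le_div_iff₀ hτ] at hn1
    linarith [mul_comm τ (((2 : ℝ) ^ k) ^ n)]
  · rw [hPk]
    rw [div_lt_iff₀ hτ] at hn2
    have h3 := hJ3 n (by omega)
    rw [div_le_iff₀ ha] at h3
    have e3 : ((2 : ℝ) ^ k) ^ (n + 1) * τ = a * ((2 : ℝ) ^ k) ^ n / 4 := by
      rw [hτdef, pow_succ, pow_add (2 : ℝ) k 2]
      field_simp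
      norm_num
    rw [e3] at hn2
    linarith

theorem cubes (k : ℕ) (hk : 2 ≤ k) (a b : ℝ) (ha : 0 < a) (hab : a < b) (m : ℕ) (hm : k < 2 ^ m)
    (hi : ∀ τ h : ℝ, 0 < τ → τ < a / 2 → 0 < h → ∃ (K : ℕ) (C : ℝ), ∀ᶠ P : ℕ in atTop,
      volume {l : Fin (k + 1 + m) → ℝ | l ∈ cube (k + 1 + m) a b ∧
        ENNReal.ofReal ((P : ℝ) ^ k * ((Real.log P) ^ K / P) ^ (2 ^ m)) < volume (bad k P a τ h l)} ≤
        ENNReal.ofReal (C / (Real.log P) ^ 2)) :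
    ∀ᵐ l : Fin (k + 1 + m) → ℝ, l ∈ cube (k + 1 + m) a b → ∀ h : ℝ, 0 < h → ∀ᶠ t : ℝ in atTop,
      ∃ x : Fin (k + 1 + m) → ℕ, (∀ i, 1 ≤ x i) ∧ t < F k l x ∧ F k l x ≤ t + h := by
  have h1 : ∀ᵐ l : Fin (k + 1 + m) → ℝ, ∀ n : ℕ, l ∈ cube (k + 1 + m) a b → ∀ᶠ t : ℝ in atTop,
      ∃ x : Fin (k + 1 + m) → ℕ, (∀ i, 1 ≤ x i) ∧ t < F k l x ∧ F k l x ≤ t + 1 / ((n : ℝ) + 1) :=
    ae_all_iff.2 (fun n => cubes_h k hk a b ha m hm hi _ (by positivity))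
  filter_upwards [h1] with l hl hcube h hh
  obtain ⟨n, hn⟩ := exists_nat_one_div_lt hh
  filter_upwards [hl n hcube] with t ht
  obtain ⟨x, hx1, hx2, hx3⟩ := ht
  exact ⟨x, hx1, hx2, by linarith⟩

end TW11

end Pool.Agent.helper616_TW
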