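import Pool.Agent.helper616_TW.Defs

/-!
# Project TW (helper616): a lower bound in long windows
-/

set_option autoImplicit false
set_option maxHeartbeats 4000000

open Finset MeasureTheory Filter Topology
open Pool.Agent.helper616_TS (e)

namespace Pool.Agent.helper616_TW

namespace TW6


theorem lower (k : ℕ) (hk : 2 ≤ k) (a b τ : ℝ) (ha : 0 < a) (hab : a < b) (hτ : 0 < τ) (hτa : τ < a / 2) :
    ∃ c : ℝ, 0 < c ∧ ∀ᶠ P : ℕ in atTop, ∀ l ∈ cube (k + 1) a b, ∀ t : ℝ, τ * (P : ℝ) ^ k ≤ t → t ≤ a * (P : ℝ) ^ k / 2 →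
      c * (P : ℝ) ^ k ≤ R k P l t (b * k * (P : ℝ) ^ (k - 1)) := by
  classical
  have hb : 0 < b := ha.trans hab
  have hk0 : (0 : ℝ) < k := by exact_mod_cast (by omega : 0 < k)
  obtain ⟨ε, hε0, hε1, hε⟩ : ∃ ε : ℝ, 0 < ε ∧ ε < 1 ∧ k * b * ε ^ k ≤ τ / 2 := by
    refine ⟨min (1 / 2) (τ / (2 * (k * b))), by positivity, ?_, ?_⟩
    · exact lt_of_le_of_lt (min_le_left _ _) (by norm_num)
    · set ε : ℝ := min (1 / 2) (τ / (2 * (k * b))) with hεd
      have h0 : 0 < ε := by positivity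
      have h1 : ε ≤ 1 := (min_le_left _ _).trans (by norm_num)
      have h2 : ε ^ k ≤ ε := by
        calc ε ^ k ≤ ε ^ 1 := pow_le_pow_of_le_one h0.le h1 (by omega)
          _ = ε := pow_one _
      have h3 : ε ≤ τ / (2 * (k * b)) := min_le_right _ _
      calc k * b * ε ^ k ≤ k * b * (τ / (2 * (k * b))) := by
            apply mul_le_mul_of_nonneg_left (h2.trans h3) (by positivity)
        _ = τ / 2 := by field_simp
  refine ⟨(ε / 2) ^ k, by positivity, ?_⟩
  filter_upwards [eventually_ge_atTop (⌈2 / ε⌉₊)] with P hP l hl t ht1 ht2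
  have hP2 : 2 / ε ≤ P := (Nat.le_ceil _).trans (by exact_mod_cast hP)
  have hPpos : (0 : ℝ) < P := lt_of_lt_of_le (by positivity) hP2
  have hεP : 2 ≤ ε * P := by
    rw [div_le_iff₀ hε0] at hP2
    linarith
  set m : ℕ := ⌊ε * P⌋₊ with hm
  have hm2 : (m : ℝ) ≤ ε * P := Nat.floor_le (by positivity)
  have hm1 : ε * P / 2 ≤ m := by
    have h1 := Nat.lt_floor_add_one (ε * P)
    rw [← hm] at h1
    linarith
  have hlb : ∀ i, a ≤ l i ∧ l i ≤ b := fun i => hl i
  have key : ∀ x ∈ box k m, ∃ z : ℕ, 1 ≤ z ∧ z ≤ P ∧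
      t < ∑ i : Fin k, l i.castSucc * (x i : ℝ) ^ k + l (Fin.last k) * (z : ℝ) ^ k ∧
      ∑ i : Fin k, l i.castSucc * (x i : ℝ) ^ k + l (Fin.last k) * (z : ℝ) ^ k ≤
        t + b * k * (P : ℝ) ^ (k - 1) := by
    intro x hx
    have hxi : ∀ i, 1 ≤ x i ∧ x i ≤ m := fun i => Finset.mem_Icc.1 (Fintype.mem_piFinset.1 hx i)
    set S : ℝ := ∑ i : Fin k, l i.castSucc * (x i : ℝ) ^ k with hS
    have hS1 : S ≤ τ * (P : ℝ) ^ k / 2 := by
      have h1 : ∀ i ∈ (Finset.univ : Finset (Fin k)), l i.castSucc * (x i : ℝ) ^ k ≤ b * (ε * P) ^ k := by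
        intro i _
        have h2 : (x i : ℝ) ≤ ε * P := le_trans (by exact_mod_cast (hxi i).2) hm2
        exact mul_le_mul (hlb _).2 (pow_le_pow_left₀ (by positivity) h2 k) (by positivity) hb.le
      have h3 := Finset.sum_le_card_nsmul _ _ _ h1
      rw [Finset.card_univ, Fintype.card_fin, nsmul_eq_mul] at h3
      have h4 : (k : ℝ) * (b * (ε * P) ^ k) = (k * b * ε ^ k) * (P : ℝ) ^ k := by
        rw [mul_pow]; ring
      rw [h4] at h3
      have h5 : (k * b * ε ^ k) * (P : ℝ) ^ k ≤ τ / 2 * (P : ℝ) ^ k :=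
        mul_le_mul_of_nonneg_right hε (by positivity)
      linarith
    have hS0 : 0 ≤ S := Finset.sum_nonneg fun i _ => mul_nonneg (ha.le.trans (hlb _).1) (by positivity)
    have hPk : (0 : ℝ) < (P : ℝ) ^ k := by positivity
    have hy0 : 0 < t - S := by
      have : 0 < τ * (P : ℝ) ^ k := by positivity
      linarith
    have hlk := hlb (Fin.last k)
    have hex : ∃ z : ℕ, t - S < l (Fin.last k) * (z : ℝ) ^ k := by
      refine ⟨P, ?_⟩
      have h1 : a * (P : ℝ) ^ k ≤ l (Fin.last k) * (P : ℝ) ^ k :=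
        mul_le_mul_of_nonneg_right hlk.1 hPk.le
      have h2 : 0 < a * (P : ℝ) ^ k := by positivity
      linarith
    let z := Nat.find hex
    have hz : t - S < l (Fin.last k) * (z : ℝ) ^ k := Nat.find_spec hex
    have hzP : z ≤ P := by
      refine Nat.find_min' hex ?_
      have h1 : a * (P : ℝ) ^ k ≤ l (Fin.last k) * (P : ℝ) ^ k :=
        mul_le_mul_of_nonneg_right hlk.1 hPk.le
      have h2 : 0 < a * (P : ℝ) ^ k := by positivity
      linarith
    have hz1 : 1 ≤ z := by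
      by_contra hcon
      have h0 : z = 0 := by omega
      rw [h0] at hz
      rw [Nat.cast_zero, zero_pow (by omega), mul_zero] at hz
      linarith
    have hzm : l (Fin.last k) * ((z - 1 : ℕ) : ℝ) ^ k ≤ t - S := by
      have h1 := Nat.find_min hex (m := z - 1) (by omega)
      exact not_lt.1 h1
    refine ⟨z, hz1, hzP, by linarith, ?_⟩
    have hzr : (0 : ℝ) < z := by exact_mod_cast hz1
    have hcast : ((z - 1 : ℕ) : ℝ) = (z : ℝ) - 1 := by
      rw [Nat.cast_sub hz1, Nat.cast_one]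
    rw [hcast] at hzm
    have hbern : (z : ℝ) ^ k - k * (z : ℝ) ^ (k - 1) ≤ ((z : ℝ) - 1) ^ k := by
      have h1 : (1 : ℝ) ≤ z := by exact_mod_cast hz1
      have h2 : 1 + (k : ℝ) * (-(1 / (z : ℝ))) ≤ (1 + -(1 / (z : ℝ))) ^ k := by
        apply one_add_mul_le_pow
        have : 1 / (z : ℝ) ≤ 1 := by
          rw [div_le_one hzr]; exact h1
        linarith
      have h3 : ((z : ℝ) - 1) ^ k = (z : ℝ) ^ k * (1 + -(1 / (z : ℝ))) ^ k := by
        rw [← mul_pow]
        congr 1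
        field_simp
        ring
      have h4 : (z : ℝ) ^ k - k * (z : ℝ) ^ (k - 1) = (z : ℝ) ^ k * (1 + (k : ℝ) * (-(1 / (z : ℝ)))) := by
        have h5 : (z : ℝ) ^ k = (z : ℝ) ^ (k - 1) * z := by
          rw [← pow_succ]
          congr 1
          omega
        rw [h5]
        field_simp
        ring
      rw [h3, h4]
      exact mul_le_mul_of_nonneg_left h2 (by positivity)
    have h6 : l (Fin.last k) * ((z : ℝ) ^ k - ((z : ℝ) - 1) ^ k) ≤ b * (k * (P : ℝ) ^ (k - 1)) := by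
      have h7 : (z : ℝ) ^ k - ((z : ℝ) - 1) ^ k ≤ k * (z : ℝ) ^ (k - 1) := by linarith
      have h8 : (k : ℝ) * (z : ℝ) ^ (k - 1) ≤ k * (P : ℝ) ^ (k - 1) :=
        mul_le_mul_of_nonneg_left (pow_le_pow_left₀ hzr.le (by exact_mod_cast hzP) _) hk0.le
      have h9 : 0 ≤ (z : ℝ) ^ k - ((z : ℝ) - 1) ^ k := by
        have h1 : (1 : ℝ) ≤ z := by exact_mod_cast hz1
        have := pow_le_pow_left₀ (by linarith : (0 : ℝ) ≤ (z : ℝ) - 1) (by linarith : (z : ℝ) - 1 ≤ z) k
        linarith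
      exact mul_le_mul hlk.2 (h7.trans h8) h9 hb.le
    have h10 : b * (k * (P : ℝ) ^ (k - 1)) = b * k * (P : ℝ) ^ (k - 1) := by ring
    rw [h10, mul_sub] at h6
    linarith
  choose! z hz using key
  have hsub : ((box k m).image fun x => (Fin.snoc x (z x) : Fin (k + 1) → ℕ)) ⊆
      (box (k + 1) P).filter fun x => t < F k l x ∧ F k l x ≤ t + b * k * (P : ℝ) ^ (k - 1) := by
    intro w hw
    obtain ⟨x, hx, rfl⟩ := Finset.mem_image.1 hw
    have hxi : ∀ i, 1 ≤ x i ∧ x i ≤ m := fun i => Finset.mem_Icc.1 (Fintype.mem_piFinset.1 hx i)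
    have hmP : m ≤ P := by
      have : (m : ℝ) ≤ P := hm2.trans (by nlinarith)
      exact_mod_cast this
    obtain ⟨h1, h2, h3, h4⟩ := hz x hx
    have hF : F k l (Fin.snoc x (z x) : Fin (k + 1) → ℕ) =
        ∑ i : Fin k, l i.castSucc * (x i : ℝ) ^ k + l (Fin.last k) * (z x : ℝ) ^ k := by
      unfold F
      rw [Fin.sum_univ_castSucc]
      simp only [Fin.snoc_castSucc, Fin.snoc_last]
    rw [Finset.mem_filter, hF]
    refine ⟨?_, h3, h4⟩
    rw [box, Fintype.mem_piFinset]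
    intro i
    refine Fin.lastCases ?_ (fun j => ?_) i
    · rw [Fin.snoc_last]
      exact Finset.mem_Icc.2 ⟨h1, h2⟩
    · rw [Fin.snoc_castSucc]
      exact Finset.mem_Icc.2 ⟨(hxi j).1, (hxi j).2.trans hmP⟩
  have hinj : Function.Injective fun x : Fin k → ℕ => (Fin.snoc x (z x) : Fin (k + 1) → ℕ) := by
    intro x y hxy
    funext i
    have h1 := congrFun hxy i.castSucc
    simpa only [Fin.snoc_castSucc] using h1
  have hcard : (box k m).card = m ^ k := by
    unfold box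
    rw [Fintype.card_piFinset]
    simp
  have hle := Finset.card_le_card hsub
  rw [Finset.card_image_of_injective _ hinj, hcard] at hle
  have h1 : ((m ^ k : ℕ) : ℝ) ≤ (R k P l t (b * k * (P : ℝ) ^ (k - 1)) : ℝ) := by
    unfold R
    exact_mod_cast hle
  refine le_trans ?_ h1
  rw [Nat.cast_pow, ← mul_pow]
  refine pow_le_pow_left₀ (by positivity) ?_ k
  linarith

end TW6

end Pool.Agent.helper616_TW
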