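import Pool.Agent.helper616_TW.Defs
import Pool.Agent.helper616_TW.TW5
import Pool.Agent.helper616_TW.TW6

/-!
# Project TW (helper616): the exceptional set
-/

set_option autoImplicit false
set_option maxHeartbeats 4000000

open Finset MeasureTheory Filter Topology
open Pool.Agent.helper616_TS (e)

namespace Pool.Agent.helper616_TW

open TW5 (variance)
open TW6 (lower)

namespace TW7


lemma cube_meas (s : ℕ) (a b : ℝ) : MeasurableSet (cube s a b) := by
  have : cube s a b = Set.pi Set.univ (fun _ => Set.Icc a b) := by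
    ext l; simp [cube, Set.mem_pi, -Set.mem_Icc, -Set.pi_univ_Icc]
  rw [this]
  exact MeasurableSet.univ_pi fun _ => measurableSet_Icc

lemma bad_meas {s : ℕ} (k P : ℕ) (a τ h : ℝ) (l : Fin s → ℝ) :
    MeasurableSet (bad k P a τ h l) := by
  have : bad k P a τ h l = Set.Icc (τ * (P : ℝ) ^ k) (a * (P : ℝ) ^ k / 2) ∩
      ⋂ x ∈ box s P, (Set.Ico (F k l x - h) (F k l x))ᶜ := by
    ext t
    simp only [bad, Set.mem_ofPred_eq, Set.mem_inter_iff, Set.mem_Icc, Set.mem_iInter,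
      Set.mem_compl_iff, Set.mem_Ico, and_assoc]
    refine and_congr_right fun _ => and_congr_right fun _ => ?_
    refine forall₂_congr fun x _ => not_congr ?_
    constructor
    · rintro ⟨h1, h2⟩; exact ⟨by linarith, h1⟩
    · rintro ⟨h1, h2⟩; exact ⟨h2, by linarith⟩
  rw [this]
  refine measurableSet_Icc.inter ?_
  exact Finset.measurableSet_biInter _ fun x _ => measurableSet_Ico.compl

lemma sum_win {s : ℕ} (k P : ℕ) (l : Fin s → ℝ) (t h H : ℝ) :
    ∑ x ∈ box s P, win h H (F k l x - t) =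
      (((R k P l t h : ℝ) / h - (R k P l t H : ℝ) / H : ℝ) : ℂ) := by
  have key : ∀ g : ℝ, ∑ x ∈ box s P, (Set.Ioc 0 g).indicator (fun _ => 1 / g) (F k l x - t) =
      (R k P l t g : ℝ) / g := by
    intro g
    have : ∀ x ∈ box s P, (Set.Ioc 0 g).indicator (fun _ => 1 / g) (F k l x - t) =
        if (t < F k l x ∧ F k l x ≤ t + g) then 1 / g else 0 := by
      intro x _
      rw [Set.indicator_apply]
      congr 1
      simp only [Set.mem_Ioc, eq_iff_iff]
      constructor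
      · rintro ⟨h1, h2⟩; exact ⟨by linarith, by linarith⟩
      · rintro ⟨h1, h2⟩; exact ⟨by linarith, by linarith⟩
    rw [Finset.sum_congr rfl this, Finset.sum_ite, Finset.sum_const_zero, add_zero,
      Finset.sum_const, nsmul_eq_mul, R, mul_one_div]
  unfold win
  rw [← Complex.ofReal_sum, Finset.sum_sub_distrib, key h, key H]

open FourierTransform in
theorem bad0 (hPl : ∀ (g : ℝ → ℂ), Integrable g → MemLp g 2 →
      ∫⁻ ξ : ℝ, ‖𝓕 g ξ‖ₑ ^ 2 = ∫⁻ z : ℝ, ‖g z‖ₑ ^ 2)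
    (k : ℕ) (hk : 2 ≤ k) (a b τ h : ℝ) (ha : 0 < a) (hab : a < b) (hτ : 0 < τ) (hτa : τ < a / 2) (hh : 0 < h) :
    ∃ C : ℝ, 0 < C ∧ ∀ᶠ P : ℕ in atTop, ∫⁻ l in cube (k + 1) a b, volume (bad k P a τ h l) ≤
      ENNReal.ofReal (C * (Real.log P) ^ (3 * k + 4) * (P : ℝ) ^ (k - 1)) := by
  obtain ⟨C, hC, hvar⟩ := variance hPl k hk a b h ha hab hh
  obtain ⟨c, hc, hlow⟩ := lower k hk a b τ ha hab hτ hτa
  have hb : 0 < b := ha.trans hab
  have hk0 : (0 : ℝ) < k := by exact_mod_cast (by omega : 0 < k)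
  have hbk : 0 < b * k := mul_pos hb hk0
  set B : ℝ := (b * k) ^ (1 + 2 / (k : ℝ)) with hB
  have hB0 : 0 < B := Real.rpow_pos_of_pos hbk _
  set c' : ℝ := c / (b * k) with hc'
  have hc'0 : 0 < c' := div_pos hc hbk
  refine ⟨C * (1 + B) / c' ^ 2, by positivity, ?_⟩
  filter_upwards [hlow, eventually_ge_atTop 2, eventually_ge_atTop ⌈(1 + h) / (b * k)⌉₊,
    eventually_ge_atTop ⌈b * k⌉₊] with P hP hP2 hP3 hP4
  have hPr : (2 : ℝ) ≤ P := by exact_mod_cast hP2
  have hP0 : (0 : ℝ) < P := by linarith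
  have hP1 : (1 : ℝ) ≤ P := by linarith
  have h3 : (1 + h) / (b * k) ≤ P := (Nat.le_ceil _).trans (by exact_mod_cast hP3)
  have h4 : b * k ≤ P := (Nat.le_ceil _).trans (by exact_mod_cast hP4)
  have hX : (P : ℝ) ≤ (P : ℝ) ^ (k - 1) := by
    calc (P : ℝ) = (P : ℝ) ^ 1 := (pow_one _).symm
      _ ≤ (P : ℝ) ^ (k - 1) := pow_le_pow_right₀ hP1 (by omega)
  have hkk : (P : ℝ) ^ k = (P : ℝ) ^ (k - 1) * P := by
    rw [← pow_succ]; congr 1; omega
  set H : ℝ := b * k * (P : ℝ) ^ (k - 1) with hH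
  have hH1 : 1 + h ≤ H := by
    have := (div_le_iff₀ hbk).1 h3
    calc 1 + h ≤ P * (b * k) := this
      _ = b * k * P := by ring
      _ ≤ H := by rw [hH]; exact mul_le_mul_of_nonneg_left hX hbk.le
  have hHP : H ≤ (P : ℝ) ^ k := by
    rw [hkk, hH, mul_comm]
    exact mul_le_mul_of_nonneg_left h4 (by positivity)
  have hH0 : 0 < H := by linarith
  have hv := hvar P hP2 H (by linarith) (by linarith) hHP
  -- the lower bound of the inner integral
  have hin : ∀ l ∈ cube (k + 1) a b, ENNReal.ofReal ((c' * P) ^ 2) * volume (bad k P a τ h l) ≤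
      ∫⁻ t : ℝ, ‖∑ x ∈ box (k + 1) P, win h H (F k l x - t)‖ₑ ^ 2 := by
    intro l hl
    calc ENNReal.ofReal ((c' * P) ^ 2) * volume (bad k P a τ h l)
        = ∫⁻ _ in bad k P a τ h l, ENNReal.ofReal ((c' * P) ^ 2) := by
          rw [setLIntegral_const]
      _ ≤ ∫⁻ t in bad k P a τ h l, ‖∑ x ∈ box (k + 1) P, win h H (F k l x - t)‖ₑ ^ 2 := by
          refine setLIntegral_mono' (bad_meas k P a τ h l) fun t ht => ?_
          have hR0 : R k P l t h = 0 := by
            rw [R, Finset.card_eq_zero, Finset.filter_eq_empty_iff]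
            intro x hx
            exact ht.2.2 x hx
          have hR1 := hP l hl t ht.1 ht.2.1
          rw [sum_win, hR0]
          rw [← ofReal_norm, ← ENNReal.ofReal_pow (norm_nonneg _)]
          refine ENNReal.ofReal_le_ofReal ?_
          refine pow_le_pow_left₀ (by positivity) ?_ 2
          rw [Complex.norm_real, Nat.cast_zero, zero_div, zero_sub, norm_neg, Real.norm_of_nonneg
            (by positivity)]
          rw [le_div_iff₀ hH0, hc', hH]
          refine le_trans (le_of_eq ?_) hR1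
          rw [hkk]
          field_simp
      _ ≤ _ := setLIntegral_le_lintegral _ _
  have hout : ENNReal.ofReal ((c' * P) ^ 2) * ∫⁻ l in cube (k + 1) a b, volume (bad k P a τ h l) ≤
      ENNReal.ofReal (C * (Real.log P) ^ (3 * k + 4) * ((P : ℝ) ^ (k + 1) + H ^ (1 + 2 / (k : ℝ)))) := by
    rw [← lintegral_const_mul' _ _ ENNReal.ofReal_ne_top]
    refine le_trans (setLIntegral_mono' (cube_meas _ _ _) hin) hv
  -- the bound for the power of H
  have hHpow : H ^ (1 + 2 / (k : ℝ)) ≤ B * (P : ℝ) ^ (k + 1) := by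
    have hX0 : (0 : ℝ) < (P : ℝ) ^ (k - 1) := by positivity
    rw [hH, Real.mul_rpow hbk.le hX0.le]
    refine mul_le_mul_of_nonneg_left ?_ hB0.le
    rw [Real.rpow_add hX0, Real.rpow_one]
    have h5 : ((P : ℝ) ^ (k - 1)) ^ (2 / (k : ℝ)) ≤ (P : ℝ) ^ 2 := by
      calc ((P : ℝ) ^ (k - 1)) ^ (2 / (k : ℝ)) ≤ ((P : ℝ) ^ k) ^ (2 / (k : ℝ)) := by
            refine Real.rpow_le_rpow hX0.le ?_ (by positivity)
            exact pow_le_pow_right₀ hP1 (by omega)
        _ = (P : ℝ) ^ 2 := by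
            rw [← Real.rpow_natCast, ← Real.rpow_mul hP0.le, mul_div_cancel₀ _ hk0.ne']
            norm_num
    calc (P : ℝ) ^ (k - 1) * ((P : ℝ) ^ (k - 1)) ^ (2 / (k : ℝ)) ≤ (P : ℝ) ^ (k - 1) * (P : ℝ) ^ 2 :=
          mul_le_mul_of_nonneg_left h5 hX0.le
      _ = (P : ℝ) ^ (k + 1) := by rw [← pow_add]; congr 1; omega
  have hlog : 0 ≤ Real.log P := Real.log_nonneg hP1
  have hfin : C * (Real.log P) ^ (3 * k + 4) * ((P : ℝ) ^ (k + 1) + H ^ (1 + 2 / (k : ℝ))) ≤
      (c' * P) ^ 2 * (C * (1 + B) / c' ^ 2 * (Real.log P) ^ (3 * k + 4) * (P : ℝ) ^ (k - 1)) := by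
    have e1 : (P : ℝ) ^ (k + 1) = (P : ℝ) ^ (k - 1) * (P : ℝ) ^ 2 := by
      rw [← pow_add]; congr 1; omega
    have e2 : (c' * P) ^ 2 * (C * (1 + B) / c' ^ 2 * (Real.log P) ^ (3 * k + 4) * (P : ℝ) ^ (k - 1)) =
        C * (Real.log P) ^ (3 * k + 4) * ((P : ℝ) ^ (k + 1) + B * (P : ℝ) ^ (k + 1)) := by
      rw [e1]; field_simp
    rw [e2]
    refine mul_le_mul_of_nonneg_left (by linarith) (by positivity)
  have h6 := hout.trans (ENNReal.ofReal_le_ofReal hfin)
  rw [ENNReal.ofReal_mul (by positivity)] at h6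
  have h7 : ENNReal.ofReal ((c' * P) ^ 2) ≠ 0 := by
    rw [Ne, ENNReal.ofReal_eq_zero, not_le]; positivity
  exact (ENNReal.mul_le_mul_iff_right h7 ENNReal.ofReal_ne_top).1 h6

end TW7

end Pool.Agent.helper616_TW
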