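import Pool.Agent.helper616_TS.Dep
import Pool.Agent.helper616_TW.TW7
import Pool.Agent.helper616_TW.TW10
import Pool.Agent.helper616_TW.TW11
import Pool.Agent.helper616_TW.TW12

/-!
# Project TW (helper616): the problem of Waring with almost all real coefficients
-/

set_option autoImplicit false

open Finset MeasureTheory Filter Topology
open Pool.Agent.helper616_TS (t_Pl)

namespace Pool.Agent.helper616_TW

theorem waring (k m : ℕ) (hk : 2 ≤ k) (hm : k < 2 ^ m) :
    ∀ᵐ l : Fin (k + 1 + m) → ℝ, (∀ i, 0 < l i) → ∀ h : ℝ, 0 < h → ∀ᶠ t : ℝ in atTop,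
      ∃ x : Fin (k + 1 + m) → ℕ, (∀ i, 1 ≤ x i) ∧ t < F k l x ∧ F k l x ≤ t + h := by
  refine TW12.allpos _ _ fun a b ha hab => ?_
  refine TW11.cubes k hk a b ha hab m hm ?_
  exact TW10.iter k hk a b ha hab (fun τ h hτ hτa hh => TW7.bad0 t_Pl k hk a b τ h ha hab hτ hτa hh) m

end Pool.Agent.helper616_TW
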